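import Pool.Agent.KEQ.Grp

/-!
# Module FGM: a finitely generated abelian group is determined by the numbers `|M / m M|`
-/

set_option autoImplicit false

namespace Pool.Agent.KEQ

open Cardinal DirectSum

namespace LFGM

/-! ### The numbers `qm` -/

lemma qm_index (M : Type) [AddCommGroup M] (m : ℕ) :
    qm M m = (nsmulAddMonoidHom m : M →+ M).range.index := rfl

lemma qm_congr {M N : Type} [AddCommGroup M] [AddCommGroup N] (e : M ≃+ N) (m : ℕ) :
    qm M m = qm N m := by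
  rw [qm_index, qm_index]
  have h : (nsmulAddMonoidHom m : N →+ N).range =
      ((nsmulAddMonoidHom m : M →+ M).range).map e.toAddMonoidHom := by
    ext y
    simp only [AddSubgroup.mem_map, AddMonoidHom.mem_range, nsmulAddMonoidHom_apply]
    constructor
    · rintro ⟨x, rfl⟩
      exact ⟨m • e.symm x, ⟨e.symm x, rfl⟩, by simp⟩
    · rintro ⟨_, ⟨x, rfl⟩, rfl⟩
      exact ⟨e x, by simp⟩
  rw [h]
  exact (AddSubgroup.index_map_equiv _ e).symm

lemma qm_prod (A B : Type) [AddCommGroup A] [AddCommGroup B] (m : ℕ) :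
    qm (A × B) m = qm A m * qm B m := by
  rw [qm_index, qm_index, qm_index, ← AddSubgroup.index_prod]
  congr 1
  ext ⟨a, b⟩
  simp only [AddSubgroup.mem_prod, AddMonoidHom.mem_range, nsmulAddMonoidHom_apply, Prod.ext_iff,
    Prod.smul_fst, Prod.smul_snd]
  constructor
  · rintro ⟨x, h1, h2⟩
    exact ⟨⟨x.1, h1⟩, ⟨x.2, h2⟩⟩
  · rintro ⟨⟨x, h1⟩, ⟨y, h2⟩⟩
    exact ⟨(x, y), h1, h2⟩

lemma qm_pi {ι : Type} [Fintype ι] (A : ι → Type) [∀ i, AddCommGroup (A i)] (m : ℕ) :
    qm (∀ i, A i) m = ∏ i, qm (A i) m := by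
  let f : (∀ i, A i) →+ ∀ i, A i ⧸ (nsmulAddMonoidHom m : A i →+ A i).range :=
    { toFun := fun x i => (x i : A i ⧸ (nsmulAddMonoidHom m : A i →+ A i).range)
      map_zero' := rfl
      map_add' := fun x y => rfl }
  have hf : Function.Surjective f := by
    intro y
    choose x hx using fun i => QuotientAddGroup.mk_surjective (y i)
    exact ⟨x, funext hx⟩
  have hk : f.ker = (nsmulAddMonoidHom m : (∀ i, A i) →+ ∀ i, A i).range := by
    ext x
    rw [AddMonoidHom.mem_ker, AddMonoidHom.mem_range]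
    constructor
    · intro h
      have h1 : ∀ i, x i ∈ (nsmulAddMonoidHom m : A i →+ A i).range := fun i =>
        (QuotientAddGroup.eq_zero_iff (x i)).1 (congrFun h i)
      choose y hy using h1
      exact ⟨y, funext hy⟩
    · rintro ⟨y, rfl⟩
      funext i
      exact (QuotientAddGroup.eq_zero_iff _).2 ⟨y i, rfl⟩
  rw [qm_index, ← hk, AddSubgroup.index_ker, AddMonoidHom.range_eq_top.2 hf]
  rw [Nat.card_congr (AddSubgroup.topEquiv (G := ∀ i, A i ⧸
    (nsmulAddMonoidHom m : A i →+ A i).range)).toEquiv, Nat.card_pi]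
  rfl

lemma qm_int (m : ℕ) : qm ℤ m = m := by
  rw [qm_index]
  have : (nsmulAddMonoidHom m : ℤ →+ ℤ).range = AddSubgroup.zmultiples (m : ℤ) := by
    ext y
    rw [AddMonoidHom.mem_range, AddSubgroup.mem_zmultiples_iff]
    constructor
    · rintro ⟨x, rfl⟩
      exact ⟨x, by simp [mul_comm]⟩
    · rintro ⟨x, rfl⟩
      exact ⟨x, by simp [mul_comm]⟩
  rw [this, Int.index_zmultiples, Int.natAbs_natCast]

lemma qm_zmod (k : ℕ) (hk : k ≠ 0) (m : ℕ) : qm (ZMod k) m = m.gcd k := by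
  have : NeZero k := ⟨hk⟩
  rw [qm_index, IsAddCyclic.index_nsmulAddMonoidHom_range, Nat.card_zmod, Nat.gcd_comm]

/-! ### The structure theorem -/

lemma struct (M : Type) [AddCommGroup M] [Module.Finite ℤ M] :
    ∃ (n : ℕ) (ι : Type) (_ : Fintype ι) (p : ι → ℕ) (_ : ∀ i, (p i).Prime) (e : ι → ℕ),
      Nonempty (M ≃+ (Fin n → ℤ) × ∀ i, ZMod (p i ^ e i)) := by
  have : AddGroup.FG M := Module.Finite.iff_addGroup_fg.1 inferInstance
  obtain ⟨n, ι, fι, p, hp, e, ⟨f⟩⟩ := AddCommGroup.equiv_free_prod_directSum_zmod M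
  classical
  exact ⟨n, ι, fι, p, hp, e, ⟨f.trans (AddEquiv.prodCongr
    (Finsupp.linearEquivFunOnFinite ℤ ℤ (Fin n)).toAddEquiv
    (DirectSum.addEquivProd fun i => ZMod (p i ^ e i)))⟩⟩

section count

variable {ι : Type} [Fintype ι] (p e : ι → ℕ)

lemma qm_std (n : ℕ) (hp : ∀ i, (p i).Prime) (m : ℕ) :
    qm ((Fin n → ℤ) × ∀ i, ZMod (p i ^ e i)) m = m ^ n * ∏ i, m.gcd (p i ^ e i) := by
  rw [qm_prod, qm_pi, qm_pi]
  simp only [qm_int, Finset.prod_const, Finset.card_univ, Fintype.card_fin]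
  congr 1
  exact Finset.prod_congr rfl fun i _ => qm_zmod _ (pow_ne_zero _ (hp i).ne_zero) m

/-- `∑_{p i = r} min k (e i)` -/
def w (r k : ℕ) : ℕ := ∑ i, if p i = r then min k (e i) else 0

/-- the number of the `i` with `p i = r`, `k ≤ e i` -/
def c (r k : ℕ) : ℕ := ∑ i, if p i = r ∧ k ≤ e i then 1 else 0

/-- the number of the `i` with `p i = r`, `e i = k` -/
def d (r k : ℕ) : ℕ := ∑ i, if p i = r ∧ e i = k then 1 else 0

lemma gcd_pow (r s k e : ℕ) (hr : r.Prime) (hs : s.Prime) :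
    (r ^ k).gcd (s ^ e) = r ^ (if s = r then min k e else 0) := by
  by_cases h : s = r
  · subst h
    rw [if_pos rfl]
    rcases le_total k e with h | h
    · rw [min_eq_left h, Nat.gcd_eq_left (pow_dvd_pow _ h)]
    · rw [min_eq_right h, Nat.gcd_eq_right (pow_dvd_pow _ h)]
  · rw [if_neg h, pow_zero]
    exact Nat.Coprime.pow _ _ ((Nat.coprime_primes hr hs).2 (Ne.symm h))

lemma qm_w (n : ℕ) (hp : ∀ i, (p i).Prime) (r k : ℕ) (hr : r.Prime) :
    (r ^ k) ^ n * ∏ i, (r ^ k).gcd (p i ^ e i) = r ^ (k * n + w p e r k) := by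
  rw [pow_add, ← pow_mul]
  congr 1
  unfold w
  rw [Finset.prod_congr rfl fun i _ => gcd_pow r (p i) k (e i) hr (hp i), Finset.prod_pow_eq_pow_sum]

lemma w_succ (r k : ℕ) : w p e r (k + 1) = w p e r k + c p e r (k + 1) := by
  unfold w c
  rw [← Finset.sum_add_distrib]
  refine Finset.sum_congr rfl fun i _ => ?_
  by_cases h : p i = r
  · by_cases h2 : k + 1 ≤ e i
    · rw [if_pos h, if_pos h, if_pos ⟨h, h2⟩]
      omega
    · rw [if_pos h, if_pos h, if_neg (fun h' => h2 h'.2)]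
      omega
  · rw [if_neg h, if_neg h, if_neg (fun h' => h h'.1)]

lemma c_eq (r k : ℕ) : c p e r k = d p e r k + c p e r (k + 1) := by
  unfold d c
  rw [← Finset.sum_add_distrib]
  refine Finset.sum_congr rfl fun i _ => ?_
  by_cases h : p i = r
  · simp only [h, true_and]
    split_ifs <;> omega
  · simp [h]

lemma c_zero (r k : ℕ) (h : ∀ i, p i ≠ r) : c p e r k = 0 := by
  unfold c
  exact Finset.sum_eq_zero fun i _ => if_neg fun h' => h i h'.1

lemma d_card (r k : ℕ) : d p e r k = Fintype.card {i : ι // p i = r ∧ e i = k} := by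
  classical
  unfold d
  rw [Fintype.card_subtype, Finset.card_filter]

end count

/-! ### Equivalences -/

lemma exists_equiv {I J : Type} [Fintype I] [Fintype J] (f : I → ℕ) (g : J → ℕ)
    (h : ∀ v, Nat.card {i // f i = v} = Nat.card {j // g j = v}) :
    ∃ σ : I ≃ J, ∀ i, g (σ i) = f i := by
  classical
  have h' : ∀ v, Nonempty ({i // f i = v} ≃ {j // g j = v}) := fun v => by
    have h2 := h v
    rw [Nat.card_eq_fintype_card, Nat.card_eq_fintype_card] at h2
    exact Fintype.card_eq.1 h2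
  let τ : ∀ v, {i // f i = v} ≃ {j // g j = v} := fun v => (h' v).some
  refine ⟨(Equiv.sigmaFiberEquiv f).symm.trans ((Equiv.sigmaCongrRight τ).trans
    (Equiv.sigmaFiberEquiv g)), fun i => ?_⟩
  exact (τ (f i) ⟨i, rfl⟩).2

/-- trivial factors can be removed -/
lemma pi_sub {ι : Type} (A : ι → Type) [∀ i, AddCommGroup (A i)] (P : ι → Prop)
    (h : ∀ i, ¬ P i → Subsingleton (A i)) :
    Nonempty ((∀ i, A i) ≃+ ∀ i : {i // P i}, A i.1) := by
  classical
  let φ : (∀ i, A i) →+ ∀ i : {i // P i}, A i.1 :=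
    { toFun := fun f i => f i.1
      map_zero' := rfl
      map_add' := fun f g => rfl }
  refine ⟨AddEquiv.ofBijective φ ⟨fun f g hfg => ?_, fun g => ?_⟩⟩
  · funext i
    by_cases hi : P i
    · exact congrFun hfg ⟨i, hi⟩
    · have := h i hi
      exact Subsingleton.elim _ _
  · refine ⟨fun i => if hi : P i then g ⟨i, hi⟩ else 0, ?_⟩
    funext i
    change (if hi : P i.1 then g ⟨i.1, hi⟩ else 0) = g i
    rw [dif_pos i.2]

lemma pi_reindex {I J : Type} (a : I → ℕ) (b : J → ℕ) (σ : I ≃ J) (h : ∀ i, b (σ i) = a i) :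
    Nonempty ((∀ i, ZMod (a i)) ≃+ ∀ j, ZMod (b j)) := by
  let ψ : (∀ j, ZMod (b j)) →+ ∀ i, ZMod (b (σ i)) :=
    { toFun := fun f i => f (σ i)
      map_zero' := rfl
      map_add' := fun f g => rfl }
  have hψ : Function.Bijective ψ := by
    refine ⟨fun f g hfg => ?_, fun g => ?_⟩
    · funext j
      obtain ⟨i, rfl⟩ := σ.surjective j
      exact congrFun hfg i
    · refine ⟨(Equiv.piCongrLeft (fun j => ZMod (b j)) σ) g, ?_⟩
      funext i
      exact Equiv.piCongrLeft_apply_apply (fun j => ZMod (b j)) σ g i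
  exact ⟨(AddEquiv.piCongrRight fun i => (ZMod.ringEquivCongr (h i).symm).toAddEquiv).trans
    (AddEquiv.ofBijective ψ hψ).symm⟩

end LFGM

open LFGM in
theorem t_FGM : FGM_Stmt := by
  intro M N _ _ _ _ h
  classical
  obtain ⟨n, ι, _, p, hp, e, ⟨f⟩⟩ := struct M
  obtain ⟨n', κ, _, q, hq, e', ⟨f'⟩⟩ := struct N
  -- the numbers
  have h1 : ∀ r k : ℕ, r.Prime → k * n + w p e r k = k * n' + w q e' r k := by
    intro r k hr
    have h2 := h (r ^ k) (Nat.one_le_pow _ _ hr.pos)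
    rw [qm_congr f, qm_congr f', qm_std p e n hp, qm_std q e' n' hq, qm_w p e n hp r k hr,
      qm_w q e' n' hq r k hr] at h2
    exact Nat.pow_right_injective hr.two_le h2
  have h2 : ∀ r k : ℕ, r.Prime → n + c p e r (k + 1) = n' + c q e' r (k + 1) := by
    intro r k hr
    have h3 := h1 r k hr
    have h4 := h1 r (k + 1) hr
    rw [w_succ, w_succ, add_mul, add_mul, one_mul, one_mul] at h4
    omega
  have hn : n = n' := by
    obtain ⟨r, hr1, hr2⟩ := Nat.exists_infinite_primes ((∑ i, p i) + (∑ j, q j) + 1)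
    have h3 := h2 r 0 hr2
    rw [c_zero, c_zero] at h3
    · simpa using h3
    · intro j hj
      have := Finset.single_le_sum (f := q) (fun _ _ => Nat.zero_le _) (Finset.mem_univ j)
      omega
    · intro i hi
      have := Finset.single_le_sum (f := p) (fun _ _ => Nat.zero_le _) (Finset.mem_univ i)
      omega
  subst hn
  have h3 : ∀ r k : ℕ, r.Prime → 1 ≤ k → d p e r k = d q e' r k := by
    intro r k hr hk
    obtain ⟨l, rfl⟩ : ∃ l, k = l + 1 := ⟨k - 1, by omega⟩
    have h4 := h2 r l hr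
    have h5 := h2 r (l + 1) hr
    have h6 := c_eq p e r (l + 1)
    have h7 := c_eq q e' r (l + 1)
    omega
  -- the indices
  have key : ∀ (α : Type) [Fintype α] (s t : α → ℕ), (∀ i, (s i).Prime) → ∀ r k : ℕ, r.Prime →
      1 ≤ k → Nat.card {i : {i : α // s i ^ t i ≠ 1} // s i.1 ^ t i.1 = r ^ k} = d s t r k := by
    intro α _ s t hs r k hr hk
    rw [d_card, ← Nat.card_eq_fintype_card]
    refine Nat.card_congr
      { toFun := fun i => ⟨i.1.1, ?_⟩
        invFun := fun i => ⟨⟨i.1, ?_⟩, ?_⟩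
        left_inv := fun i => rfl
        right_inv := fun i => rfl }
    · have h4 := i.2
      have h5 : t i.1.1 ≠ 0 := by
        intro h6
        apply i.1.2
        rw [h6, pow_zero]
      have h7 : s i.1.1 = r := by
        have h8 : s i.1.1 ∣ r ^ k := (dvd_pow_self (s i.1.1) h5).trans (dvd_of_eq h4)
        exact (Nat.prime_dvd_prime_iff_eq (hs _) hr).1 ((hs _).dvd_of_dvd_pow h8)
      refine ⟨h7, ?_⟩
      rw [h7] at h4
      exact Nat.pow_right_injective hr.two_le h4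
    · rw [i.2.1, i.2.2]
      exact (Nat.one_lt_pow (by omega) hr.one_lt).ne'
    · change s i.1 ^ t i.1 = r ^ k
      rw [i.2.1, i.2.2]
  obtain ⟨σ, hσ⟩ := exists_equiv (I := {i : ι // p i ^ e i ≠ 1}) (J := {j : κ // q j ^ e' j ≠ 1})
    (fun i => p i.1 ^ e i.1) (fun j => q j.1 ^ e' j.1) (by
      intro v
      by_cases hv : ∃ r k : ℕ, r.Prime ∧ 1 ≤ k ∧ v = r ^ k
      · obtain ⟨r, k, hr, hk, rfl⟩ := hv
        rw [key ι p e hp r k hr hk, key κ q e' hq r k hr hk, h3 r k hr hk]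
      · have h4 : IsEmpty {i : {i : ι // p i ^ e i ≠ 1} // p i.1 ^ e i.1 = v} := by
          refine ⟨fun i => hv ⟨p i.1.1, e i.1.1, hp _, ?_, i.2.symm⟩⟩
          have : e i.1.1 ≠ 0 := fun h6 => i.1.2 (by rw [h6, pow_zero])
          omega
        have h5 : IsEmpty {j : {j : κ // q j ^ e' j ≠ 1} // q j.1 ^ e' j.1 = v} := by
          refine ⟨fun i => hv ⟨q i.1.1, e' i.1.1, hq _, ?_, i.2.symm⟩⟩
          have : e' i.1.1 ≠ 0 := fun h6 => i.1.2 (by rw [h6, pow_zero])
          omega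
        rw [Nat.card_of_isEmpty, Nat.card_of_isEmpty])
  obtain ⟨g1⟩ := pi_sub (fun i => ZMod (p i ^ e i)) (fun i => p i ^ e i ≠ 1) (fun i hi => by
    have : p i ^ e i = 1 := not_not.1 hi
    rw [this]
    infer_instance)
  obtain ⟨g2⟩ := pi_sub (fun j => ZMod (q j ^ e' j)) (fun j => q j ^ e' j ≠ 1) (fun i hi => by
    have : q i ^ e' i = 1 := not_not.1 hi
    rw [this]
    infer_instance)
  obtain ⟨g3⟩ := pi_reindex (fun i : {i : ι // p i ^ e i ≠ 1} => p i.1 ^ e i.1)
    (fun j : {j : κ // q j ^ e' j ≠ 1} => q j.1 ^ e' j.1) σ hσ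
  exact ⟨f.trans ((AddEquiv.prodCongr (AddEquiv.refl _) (g1.trans (g3.trans g2.symm))).trans
    f'.symm)⟩

end Pool.Agent.KEQ
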