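import Pool.Agent.KEQ.Theory
import Pool.Agent.KEQ.FGM

/-!
# The integral Hodge classes of K-equivalent varieties
-/

set_option autoImplicit false

open CategoryTheory

namespace Pool.Agent.KEQ

universe u

theorem qm_pos (M : Type) [AddCommGroup M] [Module.Finite ℤ M] (m : ℕ) (hm : 1 ≤ m) :
    0 < qm M m := by
  obtain ⟨n, ι, _, p, hp, e, ⟨f⟩⟩ := LFGM.struct M
  rw [LFGM.qm_congr f, LFGM.qm_std p e n hp]
  have h1 : 0 < m ^ n := pow_pos hm n
  exact mul_pos h1 (Finset.prod_pos fun i _ => Nat.gcd_pos_of_pos_left _ hm)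

variable {G : GeoData} {K : G.V → Type u} [∀ X, AddCommGroup (K X)] {T : Theory G K}

/-- The additive invariant `log |H(X) / m H(X)|`. -/
noncomputable def lq (T : Theory G K) (m : ℕ) (X : G.V) : ℝ := Real.log (qm (T.H X) m)

theorem lq_pi (T : Theory G K) (m : ℕ) (Z : G.V) (n : ℕ) :
    Real.log (qm (Fin n → T.H Z) m) = n * lq T m Z := by
  rw [LFGM.qm_pi]
  simp [lq]

theorem lq_blow (T : Theory G K) (m : ℕ) (hm : 1 ≤ m) {X' X E Z : G.V} (β : X' ⟶ X) (j : E ⟶ X') (c : ℕ)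
    (h : G.blow β j Z c) : lq T m X' = lq T m X + (c - 1 : ℕ) * lq T m Z ∧
      lq T m E = c * lq T m Z := by
  obtain ⟨⟨e1⟩, ⟨e2⟩⟩ := T.hodge.2.2.2 β j c h
  have fX := T.hodge.1 X
  have fZ := T.hodge.1 Z
  constructor
  · rw [lq, LFGM.qm_congr e1, LFGM.qm_prod, Nat.cast_mul, Real.log_mul, lq_pi T m]
    · rfl
    · exact_mod_cast (qm_pos (T.H X) m hm).ne'
    · exact_mod_cast (qm_pos (Fin (c - 1) → T.H Z) m hm).ne'
  · rw [lq, LFGM.qm_congr e2, lq_pi T m]

theorem lq_msr (T : Theory G K) (m : ℕ) (hm : 1 ≤ m) : Msr G (lq T m) := by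
  constructor
  · intro X Y h
    obtain ⟨e⟩ := T.hodge.2.1 h
    rw [lq, lq, LFGM.qm_congr e]
  · intro X' X E Z b j c h
    obtain ⟨h1, h2⟩ := lq_blow T m hm b j c h
    have hc := (T.blows b j c h).1
    rw [h1, h2, Nat.cast_sub (by omega)]
    push_cast
    ring

theorem lq_prs (T : Theory G K) (m : ℕ) (pr : G.V → ℕ → G.V) (hp : ∀ X a, G.prod (pr X a) X a)
    (l : List ℕ) (X : G.V) :
    lq T m (l.foldl pr X) = ((l.map (· + 1)).prod : ℕ) * lq T m X := by
  induction l generalizing X with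
  | nil => simp
  | cons a l ih =>
    have h := ih (pr X a)
    obtain ⟨e⟩ := T.hodge.2.2.1 _ X a (hp X a)
    have h2 : lq T m (pr X a) = (a + 1 : ℕ) * lq T m X := by
      rw [lq, LFGM.qm_congr e, lq_pi T m]
    rw [h2] at h
    change lq T m (l.foldl pr (pr X a)) = _
    rw [h, List.map_cons, List.prod_cons]
    push_cast
    ring

/-- K-equivalent varieties have isomorphic groups of integral Hodge classes. -/
theorem hodge_iso (T : Theory G K) (hF : FGM_Stmt) {X Y : G.V} (h : KEq G X Y) :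
    Nonempty (T.H X ≃+ T.H Y) := by
  obtain ⟨Z, f, g, hf, hg, hK⟩ := h
  obtain ⟨l, pr, hp, hl⟩ := T.motivic f g hf hg hK
  have fX := T.hodge.1 X
  have fY := T.hodge.1 Y
  refine hF (T.H X) (T.H Y) fun m hm => ?_
  have h1 := hl ℝ (lq T m) (lq_msr T m hm)
  rw [lq_prs T m pr hp, lq_prs T m pr hp] at h1
  have h2 : (((l.map (· + 1)).prod : ℕ) : ℝ) ≠ 0 := by
    rw [Nat.cast_ne_zero]
    refine List.prod_ne_zero ?_
    simp
  have h3 := mul_left_cancel₀ h2 h1
  have h4 := Real.log_injOn_pos (Set.mem_Ioi.2 (by exact_mod_cast qm_pos (T.H X) m hm))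
    (Set.mem_Ioi.2 (by exact_mod_cast qm_pos (T.H Y) m hm)) h3
  exact_mod_cast h4

/-- The Poincaré series. -/
noncomputable def ps (T : Theory G K) (X : G.V) : PowerSeries ℤ := PowerSeries.mk fun k => (T.b k X : ℤ)

theorem coeff_shift (T : Theory G K) (Z : G.V) (k : ℕ) (s : Finset ℕ) :
    PowerSeries.coeff k (ps T Z * ∑ t ∈ s, PowerSeries.X ^ (2 * t)) =
      ((∑ t ∈ s, if 2 * t ≤ k then T.b (k - 2 * t) Z else 0 : ℕ) : ℤ) := by
  rw [Finset.mul_sum, map_sum, Nat.cast_sum]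
  refine Finset.sum_congr rfl fun t _ => ?_
  rw [PowerSeries.coeff_mul_X_pow', ps]
  split_ifs with h
  · rw [PowerSeries.coeff_mk]
  · rfl

theorem ps_msr (T : Theory G K) : Msr G (ps T) := by
  constructor
  · intro X Y h
    ext k
    rw [ps, ps, PowerSeries.coeff_mk, PowerSeries.coeff_mk, T.betti.2.1 h]
  · intro X' X E Z b j c h
    have hc := (T.blows b j c h).1
    ext k
    obtain ⟨h1, h2⟩ := T.betti.2.2.2 b j c h k
    simp only [map_add, ps, PowerSeries.coeff_mk]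
    rw [h1, h2, Finset.range_eq_Ico, ← Finset.sum_Ico_consecutive _ (Nat.zero_le 1) (by omega)]
    simp
    ring

theorem ps_prs (T : Theory G K) (pr : G.V → ℕ → G.V) (hp : ∀ X a, G.prod (pr X a) X a)
    (l : List ℕ) (X : G.V) : ps T (l.foldl pr X) =
    ps T X * (l.map fun a => ∑ t ∈ Finset.range (a + 1), PowerSeries.X ^ (2 * t)).prod := by
  induction l generalizing X with
  | nil => simp
  | cons a l ih =>
    have h := ih (pr X a)
    have h2 : ps T (pr X a) = ps T X * ∑ t ∈ Finset.range (a + 1), PowerSeries.X ^ (2 * t) := by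
      ext k
      rw [coeff_shift, ps, PowerSeries.coeff_mk, T.betti.2.2.1 _ _ _ _ (hp X a)]
    change ps T (l.foldl pr (pr X a)) = _
    rw [h, h2, List.map_cons, List.prod_cons, mul_assoc]

/-- K-equivalent varieties have the same Betti numbers. -/
theorem KEq.betti (T : Theory G K) {X Y : G.V} (h : KEq G X Y) (k : ℕ) : T.b k X = T.b k Y := by
  obtain ⟨Z, f, g, hf, hg, hK⟩ := h
  obtain ⟨l, pr, hp, hl⟩ := T.motivic f g hf hg hK
  have h1 := hl (PowerSeries ℤ) (ps T) (ps_msr T)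
  rw [ps_prs T pr hp, ps_prs T pr hp] at h1
  have h2 : (l.map fun a => ∑ t ∈ Finset.range (a + 1),
      (PowerSeries.X : PowerSeries ℤ) ^ (2 * t)).prod ≠ 0 := by
    apply List.prod_ne_zero
    intro h0
    obtain ⟨a, -, ha⟩ := List.mem_map.1 h0
    have h3 := congrArg (PowerSeries.coeff 0) ha
    rw [map_sum, Finset.sum_range_succ', map_zero] at h3
    simp [PowerSeries.coeff_X_pow] at h3
  have h3 := congrArg (PowerSeries.coeff k) (mul_right_cancel₀ h2 h1)
  rw [ps, ps, PowerSeries.coeff_mk, PowerSeries.coeff_mk] at h3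
  exact_mod_cast h3

end Pool.Agent.KEQ
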