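import Pool.Agent.KEQ.Grp

/-!
# K_0 of K-equivalent fourfolds (MP_e37830_ag): cancellation of finitely generated groups
-/

set_option autoImplicit false

namespace Pool.Agent.KEQ

universe u

namespace LCAN

open DirectSum

/-- `F` cancels. -/
def Canc (F : Type) [AddCommGroup F] : Prop := ∀ (G H : Type u) [AddCommGroup G] [AddCommGroup H],
  Nonempty ((G × F) ≃+ (H × F)) → Nonempty (G ≃+ H)

theorem Canc.congr {F F' : Type} [AddCommGroup F] [AddCommGroup F'] (e : F ≃+ F')
    (h : Canc.{u} F) : Canc.{u} F' := by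
  intro G H _ _ ⟨φ⟩
  exact h G H ⟨((AddEquiv.refl G).prodCongr e).trans (φ.trans ((AddEquiv.refl H).prodCongr e.symm))⟩

theorem Canc.prod {F F' : Type} [AddCommGroup F] [AddCommGroup F'] (h : Canc.{u} F)
    (h' : Canc.{u} F') : Canc.{u} (F × F') := by
  intro G H _ _ ⟨φ⟩
  apply h G H
  apply h' (G × F) (H × F)
  exact ⟨(AddEquiv.prodAssoc (M := G) (N := F) (P := F')).trans
    (φ.trans (AddEquiv.prodAssoc (M := H) (N := F) (P := F')).symm)⟩

theorem Canc.of_subsingleton (F : Type) [AddCommGroup F] [Subsingleton F] : Canc.{u} F := by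
  intro G H _ _ ⟨φ⟩
  refine ⟨⟨⟨fun g => (φ (g, 0)).1, fun h => (φ.symm (h, 0)).1, ?_, ?_⟩, ?_⟩⟩
  · intro g
    have h1 : ((φ (g, 0)).1, (0 : F)) = φ (g, 0) := Prod.ext rfl (Subsingleton.elim _ _)
    simp only
    rw [h1, AddEquiv.symm_apply_apply]
  · intro h
    have h1 : ((φ.symm (h, 0)).1, (0 : F)) = φ.symm (h, 0) := Prod.ext rfl (Subsingleton.elim _ _)
    simp only
    rw [h1, AddEquiv.apply_symm_apply]
  · intro g g'
    have h1 : ((g + g', (0 : F)) : G × F) = (g, 0) + (g', 0) := by simp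
    change (φ (g + g', 0)).1 = (φ (g, 0)).1 + (φ (g', 0)).1
    rw [h1, map_add, Prod.fst_add]

/-- splitting of the first coordinate -/
def consEquiv {n : ℕ} (K : Fin (n + 1) → Type) [∀ i, AddCommGroup (K i)] :
    ((K 0) × (∀ i : Fin n, K i.succ)) ≃+ (∀ i, K i) where
  toFun p := Fin.cons p.1 p.2
  invFun f := (f 0, fun i => f i.succ)
  left_inv p := by simp
  right_inv f := by
    funext i
    refine Fin.cases ?_ (fun j => ?_) i <;> simp
  map_add' p q := by
    funext i
    refine Fin.cases ?_ (fun j => ?_) i <;> simp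

theorem Canc.pi_fin (n : ℕ) : ∀ (K : Fin n → Type) [∀ i, AddCommGroup (K i)],
    (∀ i, Canc.{u} (K i)) → Canc.{u} (∀ i, K i) := by
  induction n with
  | zero =>
    intro K _ _
    exact Canc.of_subsingleton _
  | succ n ih =>
    intro K _ h
    exact ((h 0).prod (ih (fun i => K i.succ) fun i => h i.succ)).congr (consEquiv K)

theorem Canc.pi {ι : Type} [Fintype ι] (K : ι → Type) [∀ i, AddCommGroup (K i)]
    (h : ∀ i, Canc.{u} (K i)) : Canc.{u} (∀ i, K i) := by
  let e : ι ≃ Fin (Fintype.card ι) := Fintype.equivFin ι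
  have h1 := Canc.pi_fin _ (fun j => K (e.symm j)) fun j => h _
  exact h1.congr (LinearEquiv.piCongrLeft' ℤ K e).toAddEquiv.symm

/-! ### `ℤ` -/

/-- a nonzero homomorphism to `ℤ` splits off `ℤ` -/
theorem split {B : Type u} [AddCommGroup B] (f : B →+ ℤ) (hf : f ≠ 0) :
    Nonempty (B ≃+ (f.ker × ℤ)) := by
  obtain ⟨m, hm⟩ := Int.subgroup_cyclic f.range
  rw [← AddSubgroup.zmultiples_eq_closure] at hm
  have hm0 : m ≠ 0 := by
    rintro rfl
    apply hf
    ext x
    have h1 : f x ∈ f.range := ⟨x, rfl⟩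
    rw [hm] at h1
    simpa using h1
  have hdvd : ∀ x, m ∣ f x := by
    intro x
    have h1 : f x ∈ f.range := ⟨x, rfl⟩
    rw [hm, Int.mem_zmultiples_iff] at h1
    exact h1
  obtain ⟨b, hb⟩ : m ∈ f.range := by
    rw [hm]
    exact AddSubgroup.mem_zmultiples m
  have hq : ∀ x, f x / m * m = f x := fun x => Int.ediv_mul_cancel (hdvd x)
  have hadd : ∀ x y, f (x + y) / m = f x / m + f y / m := fun x y => by
    rw [map_add, Int.add_ediv_of_dvd_left (hdvd x)]
  have hk : ∀ x, f (x - (f x / m) • b) = 0 := fun x => by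
    rw [map_sub, map_zsmul, hb, smul_eq_mul, hq, sub_self]
  refine ⟨⟨⟨fun x => (⟨x - (f x / m) • b, hk x⟩, f x / m), fun p => (p.1 : B) + p.2 • b,
    ?_, ?_⟩, ?_⟩⟩
  · intro x
    simp
  · rintro ⟨⟨k, hk'⟩, n⟩
    have hk0 : f k = 0 := hk'
    have h1 : f (k + n • b) / m = n := by
      rw [map_add, hk0, zero_add, map_zsmul, hb, smul_eq_mul, Int.mul_ediv_cancel _ hm0]
    refine Prod.ext (Subtype.ext ?_) h1
    change k + n • b - (f (k + n • b) / m) • b = k
    rw [h1, add_sub_cancel_right]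
  · intro x y
    refine Prod.ext (Subtype.ext ?_) (hadd x y)
    change x + y - (f (x + y) / m) • b = (x - (f x / m) • b) + (y - (f y / m) • b)
    rw [hadd, add_smul]
    abel

/-- if `g` vanishes on the kernel of `f` then the kernels are equal -/
theorem ker_eq {A : Type u} [AddCommGroup A] {f g : A →+ ℤ} (hf : Function.Surjective f)
    (hg : Function.Surjective g) (h : ∀ x, f x = 0 → g x = 0) : ∀ x, g x = 0 → f x = 0 := by
  obtain ⟨a, ha⟩ := hf 1
  have h1 : ∀ x, g x = f x * g a := by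
    intro x
    have h2 := h (x - f x • a) (by rw [map_sub, map_zsmul, ha]; simp)
    rw [map_sub, map_zsmul, smul_eq_mul, sub_eq_zero] at h2
    exact h2
  obtain ⟨x₁, hx₁⟩ := hg 1
  have h3 : g a ≠ 0 := by
    intro h4
    rw [h1, h4, mul_zero] at hx₁
    exact zero_ne_one hx₁
  intro x hx
  rw [h1] at hx
  exact (mul_eq_zero.1 hx).resolve_right h3

theorem ker_iso {A : Type u} [AddCommGroup A] {f g : A →+ ℤ} (hf : Function.Surjective f)
    (hg : Function.Surjective g) : Nonempty (f.ker ≃+ g.ker) := by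
  by_cases h : ∀ x, f x = 0 → g x = 0
  · have h' := ker_eq hf hg h
    have e : f.ker = g.ker := by
      ext x
      exact ⟨h x, h' x⟩
    rw [e]
    exact ⟨AddEquiv.refl _⟩
  · have h' : ¬ ∀ x, g x = 0 → f x = 0 := fun h2 => h (ker_eq hg hf h2)
    have n1 : g.comp f.ker.subtype ≠ 0 := by
      intro h0
      apply h
      intro x hx
      exact DFunLike.congr_fun h0 ⟨x, hx⟩
    have n2 : f.comp g.ker.subtype ≠ 0 := by
      intro h0
      apply h'
      intro x hx
      exact DFunLike.congr_fun h0 ⟨x, hx⟩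
    obtain ⟨e1⟩ := split _ n1
    obtain ⟨e2⟩ := split _ n2
    have e3 : (g.comp f.ker.subtype).ker ≃+ (f.comp g.ker.subtype).ker :=
      { toFun := fun x => ⟨⟨x.1.1, x.2⟩, x.1.2⟩
        invFun := fun x => ⟨⟨x.1.1, x.2⟩, x.1.2⟩
        left_inv := fun x => rfl
        right_inv := fun x => rfl
        map_add' := fun x y => rfl }
    exact ⟨e1.trans ((e3.prodCongr (AddEquiv.refl ℤ)).trans e2.symm)⟩

theorem canc_int : Canc.{u} ℤ := by
  intro G H _ _ ⟨φ⟩
  have h1 : Function.Surjective (AddMonoidHom.snd G ℤ) := fun n => ⟨(0, n), rfl⟩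
  have h2 : Function.Surjective ((AddMonoidHom.snd H ℤ).comp φ.toAddMonoidHom) := fun n =>
    ⟨φ.symm (0, n), by simp⟩
  obtain ⟨e⟩ := ker_iso h1 h2
  have e1 : G ≃+ (AddMonoidHom.snd G ℤ).ker :=
    { toFun := fun g => ⟨(g, 0), rfl⟩
      invFun := fun p => p.1.1
      left_inv := fun g => rfl
      right_inv := fun p => Subtype.ext (Prod.ext rfl (p.2 : p.1.2 = 0).symm)
      map_add' := fun g g' => Subtype.ext (Prod.ext rfl (add_zero (0 : ℤ)).symm) }
  have e2 : ((AddMonoidHom.snd H ℤ).comp φ.toAddMonoidHom).ker ≃+ H :=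
    { toFun := fun p => (φ p.1).1
      invFun := fun h => ⟨φ.symm (h, 0), by
        change (φ (φ.symm (h, 0))).2 = 0
        rw [AddEquiv.apply_symm_apply]⟩
      left_inv := fun p => by
        apply Subtype.ext
        have h3 : (φ p.1).2 = 0 := p.2
        have h4 : ((φ p.1).1, (0 : ℤ)) = φ p.1 := Prod.ext rfl h3.symm
        change φ.symm ((φ p.1).1, 0) = p.1
        rw [h4, AddEquiv.symm_apply_apply]
      right_inv := fun h => by
        change (φ (φ.symm (h, 0))).1 = h
        rw [AddEquiv.apply_symm_apply]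
      map_add' := fun p q => by
        change (φ (p.1 + q.1)).1 = (φ p.1).1 + (φ q.1).1
        rw [map_add, Prod.fst_add] }
  exact ⟨e1.trans (e.trans e2)⟩

/-! ### Finite groups with a local endomorphism ring -/

/-- Schur complement -/
theorem schur {F : Type} {G H : Type u} [AddCommGroup F] [AddCommGroup G] [AddCommGroup H]
    (φ : (G × F) ≃+ (H × F)) (hd : Function.Bijective fun x : F => (φ (0, x)).2) :
    Nonempty (G ≃+ H) := by
  let d : F →+ F := (AddMonoidHom.snd H F).comp (φ.toAddMonoidHom.comp (AddMonoidHom.inr G F))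
  have hd' : Function.Bijective d := hd
  let D : F ≃+ F := AddEquiv.ofBijective d hd'
  have hD : ∀ x, (φ (0, D.symm x)).2 = x := fun x => D.apply_symm_apply x
  let s : G →+ F := -(D.symm.toAddMonoidHom.comp
    ((AddMonoidHom.snd H F).comp (φ.toAddMonoidHom.comp (AddMonoidHom.inl G F))))
  have hs : ∀ g, s g = -D.symm (φ (g, 0)).2 := fun g => rfl
  have h1 : ∀ g, (φ (g, s g)).2 = 0 := by
    intro g
    have e : ((g, s g) : G × F) = (g, 0) - (0, D.symm (φ (g, 0)).2) := by
      rw [hs]; simp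
    rw [e, map_sub, Prod.snd_sub, hD, sub_self]
  have h2 : ∀ g x, (φ (g, x)).2 = 0 → x = s g := by
    intro g x hx
    have e : ((g, x) : G × F) = (g, s g) + (0, x - s g) := by simp
    rw [e, map_add, Prod.snd_add, h1, zero_add] at hx
    have h3 : d (x - s g) = 0 := hx
    have h4 : x - s g = 0 := hd'.1 (h3.trans (map_zero d).symm)
    exact sub_eq_zero.1 h4
  refine ⟨⟨⟨fun g => (φ (g, s g)).1, fun h => (φ.symm (h, 0)).1, ?_, ?_⟩, ?_⟩⟩
  · intro g
    have e : ((φ (g, s g)).1, (0 : F)) = φ (g, s g) := Prod.ext rfl (h1 g).symm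
    change (φ.symm ((φ (g, s g)).1, 0)).1 = g
    rw [e, AddEquiv.symm_apply_apply]
  · intro h
    have e : (φ.symm (h, 0)).2 = s (φ.symm (h, 0)).1 := by
      apply h2
      change (φ (φ.symm (h, 0))).2 = 0
      rw [AddEquiv.apply_symm_apply]
    change (φ ((φ.symm (h, 0)).1, s (φ.symm (h, 0)).1)).1 = h
    rw [← e]
    change (φ (φ.symm (h, 0))).1 = h
    rw [AddEquiv.apply_symm_apply]
  · intro g g'
    change (φ (g + g', s (g + g'))).1 = (φ (g, s g)).1 + (φ (g', s g')).1
    have e : ((g + g', s (g + g')) : G × F) = (g, s g) + (g', s g') := by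
      rw [map_add]; rfl
    rw [e, map_add, Prod.fst_add]

/-- the shear `(h, f) ↦ (h, f + s h)` -/
def shear {F : Type} {H : Type u} [AddCommGroup F] [AddCommGroup H] (s : H →+ F) : (H × F) ≃+ (H × F) where
  toFun p := (p.1, p.2 + s p.1)
  invFun p := (p.1, p.2 - s p.1)
  left_inv p := by simp
  right_inv p := by simp
  map_add' p q := by
    refine Prod.ext rfl ?_
    change p.2 + q.2 + s (p.1 + q.1) = (p.2 + s p.1) + (q.2 + s q.1)
    rw [map_add]
    abel

theorem canc_local (F : Type) [AddCommGroup F] [Finite F]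
    (hF : ∀ u v : F →+ F, (∀ x, u x + v x = x) → Function.Bijective u ∨ Function.Bijective v) :
    Canc.{u} F := by
  intro G H _ _ ⟨φ⟩
  let b : F →+ H := (AddMonoidHom.fst H F).comp (φ.toAddMonoidHom.comp (AddMonoidHom.inr G F))
  let d : F →+ F := (AddMonoidHom.snd H F).comp (φ.toAddMonoidHom.comp (AddMonoidHom.inr G F))
  let c' : H →+ F := (AddMonoidHom.snd G F).comp
    (φ.symm.toAddMonoidHom.comp (AddMonoidHom.inl H F))
  let d' : F →+ F := (AddMonoidHom.snd G F).comp
    (φ.symm.toAddMonoidHom.comp (AddMonoidHom.inr H F))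
  have h1 : ∀ x, (c'.comp b) x + (d'.comp d) x = x := by
    intro x
    have e : φ.symm (φ (0, x)) = (0, x) := φ.symm_apply_apply _
    have e2 : φ (0, x) = (b x, 0) + (0, d x) := by
      simp only [Prod.mk_add_mk, add_zero, zero_add]
      rfl
    rw [e2, map_add] at e
    exact congrArg Prod.snd e
  rcases hF _ _ h1 with hu | hv
  · let U : F ≃+ F := AddEquiv.ofBijective (c'.comp b) hu
    have hU : ∀ x, U.symm (c' (b x)) = x := fun x => U.symm_apply_apply x
    let s : H →+ F := ((AddMonoidHom.id F - d).comp U.symm.toAddMonoidHom).comp c'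
    apply schur (φ.trans (shear s))
    have h2 : ∀ x : F, ((φ.trans (shear s)) (0, x)).2 = x := by
      intro x
      change d x + s (b x) = x
      have h3 : s (b x) = U.symm (c' (b x)) - d (U.symm (c' (b x))) := rfl
      rw [h3, hU]
      abel
    have h3 : (fun x : F => ((φ.trans (shear s)) (0, x)).2) = id := funext h2
    rw [h3]
    exact Function.bijective_id
  · apply schur φ
    have h2 : Function.Injective d := by
      intro x y hxy
      apply hv.1
      change d' (d x) = d' (d y)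
      rw [hxy]
    exact Finite.injective_iff_bijective.1 h2

/-- an endomorphism of `ZMod n` is a multiplication -/
theorem end_zmod {n : ℕ} (u : ZMod n →+ ZMod n) (x : ZMod n) : u x = u 1 * x := by
  obtain ⟨k, rfl⟩ := ZMod.intCast_surjective x
  have h1 : ((k : ℤ) : ZMod n) = k • (1 : ZMod n) := by simp
  rw [h1, map_zsmul]
  simp [mul_comm]

theorem bij_of_unit {n : ℕ} (u : ZMod n →+ ZMod n) (h : IsUnit (u 1)) : Function.Bijective u := by
  have e : (u : ZMod n → ZMod n) = fun x => u 1 * x := funext (end_zmod u)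
  rw [e]
  exact (IsUnit.isUnit_iff_mulLeft_bijective.1 h)

theorem canc_zmod (p : ℕ) (hp : p.Prime) (e : ℕ) : Canc.{u} (ZMod (p ^ e)) := by
  have : NeZero (p ^ e) := ⟨pow_ne_zero _ hp.ne_zero⟩
  rcases Nat.eq_zero_or_pos e with he | he
  · subst he
    have : Subsingleton (ZMod (p ^ 0)) := by
      rw [pow_zero]; infer_instance
    exact Canc.of_subsingleton _
  · apply canc_local
    intro u v h
    by_cases hu : IsUnit (u 1)
    · exact Or.inl (bij_of_unit u hu)
    · by_cases hv : IsUnit (v 1)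
      · exact Or.inr (bij_of_unit v hv)
      · exfalso
        have key : ∀ x : ZMod (p ^ e), ¬ IsUnit x → ZMod.castHom (dvd_pow_self p he.ne') (ZMod p) x = 0 := by
          intro x hx
          obtain ⟨k, rfl⟩ := ZMod.natCast_zmod_surjective x
          rw [ZMod.isUnit_iff_coprime] at hx
          have h2 : p ∣ k := by
            by_contra h3
            apply hx
            exact (Nat.Coprime.pow_right e ((Nat.Prime.coprime_iff_not_dvd hp).2 h3).symm)
          rw [map_natCast]
          exact (ZMod.natCast_eq_zero_iff _ _).2 h2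
        have : Fact p.Prime := ⟨hp⟩
        have h4 := congrArg (ZMod.castHom (dvd_pow_self p he.ne') (ZMod p)) (h 1)
        rw [map_add, key _ hu, key _ hv, map_one, add_zero] at h4
        exact zero_ne_one h4

end LCAN

open LCAN DirectSum in
/-- **CAN.** -/
theorem t_CAN : CAN_Stmt.{u} := by
  intro F G H _ _ _ _ ⟨φ⟩
  have : AddGroup.FG F := Module.Finite.iff_addGroup_fg.1 inferInstance
  obtain ⟨n, ι, _, p, hp, e, ⟨E⟩⟩ := AddCommGroup.equiv_free_prod_directSum_zmod F
  classical
  have h1 : Canc.{u} (Fin n → ℤ) := Canc.pi (fun _ => ℤ) fun _ => canc_int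
  have h2 : Canc.{u} (∀ i, ZMod (p i ^ e i)) := Canc.pi _ fun i => canc_zmod _ (hp i) _
  have h3 : Canc.{u} (Fin n →₀ ℤ) :=
    h1.congr (Finsupp.linearEquivFunOnFinite ℤ ℤ (Fin n)).toAddEquiv.symm
  have h4 : Canc.{u} (⨁ i : ι, ZMod (p i ^ e i)) :=
    h2.congr (DirectSum.addEquivProd (fun i => ZMod (p i ^ e i))).symm
  exact (h3.prod h4) G H ⟨((AddEquiv.refl G).prodCongr E.symm).trans
    (φ.trans ((AddEquiv.refl H).prodCongr E))⟩

end Pool.Agent.KEQ
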