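import Pool.Agent.KEQ.Grp

/-!
# K_0 of K-equivalent fourfolds (MP_e37830_ag): classification of divisible groups
-/

set_option autoImplicit false

namespace Pool.Agent.KEQ

open Cardinal

universe u

namespace LDVC

/-! ### extension of homomorphisms -/

theorem ext_hom {M N Q : Type u} [AddCommGroup M] [AddCommGroup N] [AddCommGroup Q] (hQ : Dvs Q)
    (f : M →+ N) (hf : Function.Injective f) (g : M →+ Q) : ∃ h : N →+ Q, h.comp f = g := by
  let _ : DivisibleBy Q ℕ := divisibleByOfSMulRightSurj Q ℕ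
    (fun {n} hn x => hQ n x (Nat.pos_of_ne_zero hn))
  let _ : DivisibleBy Q ℤ := AddGroup.divisibleByIntOfDivisibleByNat Q
  exact (Module.Baer.of_divisible Q).extension_property_addMonoidHom f hf g

/-! ### vector spaces over the prime fields -/

theorem vs_equiv (p : ℕ) [Fact p.Prime] (V W : Type u) [AddCommGroup V] [AddCommGroup W]
    [Module (ZMod p) V] [Module (ZMod p) W] (h : #V = #W) : Nonempty (V ≃+ W) := by
  have hinf : ∀ (U : Type u) [AddCommGroup U] [Module (ZMod p) U], Infinite U →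
      Module.rank (ZMod p) U = #U := by
    intro U _ _ hU
    have e := (Module.Free.chooseBasis (ZMod p) U).repr.toEquiv
    have hι : Infinite (Module.Free.ChooseBasisIndex (ZMod p) U) := by
      by_contra hc
      rw [not_infinite_iff_finite] at hc
      have : Finite (Module.Free.ChooseBasisIndex (ZMod p) U →₀ ZMod p) :=
        Finite.of_equiv _ Finsupp.equivFunOnFinite.symm
      exact hU.not_finite (Finite.of_equiv _ e.symm)
    have h1 : #U = #(Module.Free.ChooseBasisIndex (ZMod p) U →₀ ZMod p) := Cardinal.mk_congr e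
    rw [Cardinal.mk_finsupp_lift_of_infinite, Cardinal.lift_uzero] at h1
    rw [h1, Module.Free.rank_eq_card_chooseBasisIndex, eq_comm]
    apply max_eq_left
    refine le_trans (le_of_lt ?_) (Cardinal.infinite_iff.1 hι)
    rw [Cardinal.lift_lt_aleph0]
    exact Cardinal.lt_aleph0_of_finite _
  by_cases hV : Finite V
  · have hW : Finite W := by
      rw [← Cardinal.lt_aleph0_iff_finite, ← h]
      exact Cardinal.lt_aleph0_of_finite V
    have h1 := Module.natCard_eq_pow_finrank (K := ZMod p) (V := V)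
    have h2 := Module.natCard_eq_pow_finrank (K := ZMod p) (V := W)
    have h3 : Nat.card V = Nat.card W := by
      unfold Nat.card
      rw [h]
    rw [h1, h2, Nat.card_zmod] at h3
    have h4 := Nat.pow_right_injective (Fact.out : p.Prime).two_le h3
    exact ⟨(LinearEquiv.ofFinrankEq V W h4).toAddEquiv⟩
  · rw [not_finite_iff_infinite] at hV
    have hW : Infinite W := by
      rw [Cardinal.infinite_iff, ← h]
      exact Cardinal.infinite_iff.1 hV
    obtain ⟨e⟩ := nonempty_linearEquiv_of_rank_eq (R := ZMod p) (M := V) (M₁ := W) (by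
      rw [hinf V hV, hinf W hW, h])
    exact ⟨e.toAddEquiv⟩

/-- elements killed by `p` -/
def tp (A : Type u) [AddCommGroup A] (p : ℕ) : AddSubgroup A := (nsmulAddMonoidHom p : A →+ A).ker

theorem mem_tp {A : Type u} [AddCommGroup A] {p : ℕ} {x : A} : x ∈ tp A p ↔ p • x = 0 := by
  unfold tp
  rw [AddMonoidHom.mem_ker]
  rfl

theorem tp_equiv {A B : Type u} [AddCommGroup A] [AddCommGroup B] (p : ℕ) (hp : p.Prime)
    (h : #(tp A p) = #(tp B p)) : Nonempty (tp A p ≃+ tp B p) := by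
  have : Fact p.Prime := ⟨hp⟩
  let _ : Module (ZMod p) (tp A p) := AddCommGroup.zmodModule (fun x => Subtype.ext (by
    rw [AddSubgroup.coe_nsmul]; exact mem_tp.1 x.2))
  let _ : Module (ZMod p) (tp B p) := AddCommGroup.zmodModule (fun x => Subtype.ext (by
    rw [AddSubgroup.coe_nsmul]; exact mem_tp.1 x.2))
  exact vs_equiv p _ _ h

/-! ### the socle -/

/-- the sum map -/
noncomputable def io (A : Type u) [AddCommGroup A] : (Π₀ p : Nat.Primes, tp A p) →+ A :=
  DFinsupp.sumAddHom fun p => (tp A p).subtype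

theorem eq_zero_of_coprime {A : Type u} [AddCommGroup A] {m n : ℕ} (h : Nat.Coprime m n) {x : A}
    (h1 : m • x = 0) (h2 : n • x = 0) : x = 0 := by
  have h3 := Nat.dvd_gcd (addOrderOf_dvd_of_nsmul_eq_zero h1) (addOrderOf_dvd_of_nsmul_eq_zero h2)
  rw [h.gcd_eq_one, Nat.dvd_one, AddMonoid.addOrderOf_eq_one_iff] at h3
  exact h3

theorem io_injective (A : Type u) [AddCommGroup A] : Function.Injective (io A) := by
  classical
  rw [injective_iff_map_eq_zero]
  intro x hx
  ext p0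
  rw [DFinsupp.zero_apply]
  by_cases hp0 : p0 ∈ x.support
  · unfold io at hx
    rw [DFinsupp.sumAddHom_apply, DFinsupp.sum] at hx
    set N : ℕ := ∏ q ∈ x.support.erase p0, (q : ℕ) with hN
    have h1 : N • (∑ p ∈ x.support, (tp A p).subtype (x p)) = 0 := by rw [hx, smul_zero]
    rw [Finset.smul_sum, Finset.sum_eq_single_of_mem p0 hp0] at h1
    · have h2 : (p0 : ℕ) • ((x p0 : tp A p0) : A) = 0 := mem_tp.1 (x p0).2
      have h3 : Nat.Coprime N p0 := by
        rw [hN]
        refine Nat.Coprime.prod_left fun q hq => ?_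
        rw [Nat.coprime_primes q.2 p0.2]
        intro h
        exact (Finset.mem_erase.1 hq).1 (Subtype.ext h)
      have h4 := eq_zero_of_coprime h3 h1 h2
      exact h4
    · intro q hq hqp
      obtain ⟨c, hc⟩ := Finset.dvd_prod_of_mem (fun q : Nat.Primes => (q : ℕ))
        (Finset.mem_erase.2 ⟨hqp, hq⟩)
      change N = (q : ℕ) * c at hc
      rw [hc, mul_comm, mul_nsmul']
      have h2 : (q : ℕ) • ((x q : tp A q) : A) = 0 := mem_tp.1 (x q).2
      rw [AddSubgroup.coe_subtype, h2, smul_zero]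
  · rw [DFinsupp.notMem_support_iff.1 hp0]

/-! ### divisible torsion groups -/

theorem tors_equiv (S T : Type u) [AddCommGroup S] [AddCommGroup T] (hS : Dvs S) (hT : Dvs T)
    (tS : ∀ x : S, ∃ n : ℕ, 1 ≤ n ∧ n • x = 0) (tT : ∀ x : T, ∃ n : ℕ, 1 ≤ n ∧ n • x = 0)
    (h : ∀ p : ℕ, p.Prime → Nonempty (tp S p ≃+ tp T p)) : Nonempty (S ≃+ T) := by
  classical
  have φ : ∀ p : Nat.Primes, tp S p ≃+ tp T p := fun p => (h p p.2).some
  obtain ⟨F, hF⟩ := ext_hom hT (io S) (io_injective S)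
    (DFinsupp.sumAddHom fun p => (tp T p).subtype.comp (φ p).toAddMonoidHom)
  have hF1 : ∀ (p : Nat.Primes) (s : tp S p), F s = φ p s := by
    intro p s
    have h1 := DFunLike.congr_fun hF (DFinsupp.single p s)
    rw [AddMonoidHom.comp_apply] at h1
    unfold io at h1
    rw [DFinsupp.sumAddHom_single, DFinsupp.sumAddHom_single] at h1
    exact h1
  have hinj : ∀ n : ℕ, 1 ≤ n → ∀ x : S, n • x = 0 → F x = 0 → x = 0 := by
    intro n
    induction n using induction_on_primes with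
    | zero => intro h0; omega
    | one => intro _ x hx _; rwa [one_nsmul] at hx
    | prime_mul p a hp ih =>
      intro hn x hx hFx
      have ha : 1 ≤ a := by
        rcases Nat.eq_zero_or_pos a with rfl | ha
        · simp at hn
        · exact ha
      have h1 : p • x = 0 := by
        refine ih ha (p • x) ?_ ?_
        · rw [← mul_nsmul, hx]
        · rw [map_nsmul, hFx, smul_zero]
      have h2 := hF1 ⟨p, hp⟩ ⟨x, mem_tp.2 h1⟩
      change F x = _ at h2
      rw [hFx] at h2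
      have h3 : φ ⟨p, hp⟩ ⟨x, mem_tp.2 h1⟩ = 0 := Subtype.ext h2.symm
      rw [map_eq_zero_iff _ (φ ⟨p, hp⟩).injective] at h3
      exact congrArg Subtype.val h3
  have hsur : ∀ n : ℕ, 1 ≤ n → ∀ y : T, n • y = 0 → ∃ x, F x = y := by
    intro n
    induction n using induction_on_primes with
    | zero => intro h0; omega
    | one => intro _ y hy; rw [one_nsmul] at hy; exact ⟨0, by rw [hy, map_zero]⟩
    | prime_mul p a hp ih =>
      intro hn y hy
      have ha : 1 ≤ a := by
        rcases Nat.eq_zero_or_pos a with rfl | ha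
        · simp at hn
        · exact ha
      obtain ⟨x, hx⟩ := ih ha (p • y) (by rw [← mul_nsmul, hy])
      obtain ⟨x', hx'⟩ := hS p x hp.one_lt.le
      have h1 : p • (y - F x') = 0 := by
        rw [smul_sub, ← map_nsmul, hx', hx, sub_self]
      have h2 := hF1 ⟨p, hp⟩ ((φ ⟨p, hp⟩).symm ⟨y - F x', mem_tp.2 h1⟩)
      rw [AddEquiv.apply_symm_apply] at h2
      refine ⟨x' + (((φ ⟨p, hp⟩).symm ⟨y - F x', mem_tp.2 h1⟩ : tp S p) : S), ?_⟩
      rw [map_add, h2]
      change F x' + (y - F x') = y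
      abel
  refine ⟨AddEquiv.ofBijective F ⟨?_, ?_⟩⟩
  · rw [injective_iff_map_eq_zero]
    intro x hx
    obtain ⟨n, hn, hnx⟩ := tS x
    exact hinj n hn x hnx hx
  · intro y
    obtain ⟨n, hn, hny⟩ := tT y
    exact hsur n hn y hny

/-! ### divisible torsion free groups -/

theorem loc_id (Q : Type u) [AddCommGroup Q] (hQ : Dvs Q)
    (tQ : ∀ n : ℕ, 1 ≤ n → ∀ x : Q, n • x = 0 → x = 0) :
    IsLocalizedModule (nonZeroDivisors ℤ) (LinearMap.id : Q →ₗ[ℤ] Q) where
  map_units := by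
    rintro ⟨s, hs⟩
    have hs0 : s ≠ 0 := nonZeroDivisors.ne_zero hs
    rw [Module.End.isUnit_iff]
    have hnat : 1 ≤ s.natAbs := Nat.pos_of_ne_zero (Int.natAbs_ne_zero.2 hs0)
    constructor
    · rw [injective_iff_map_eq_zero]
      intro x hx
      change s • x = 0 at hx
      refine tQ _ hnat x ?_
      rw [← natCast_zsmul]
      rcases Int.natAbs_eq s with h | h
      · rw [← h]; exact hx
      · have : ((s.natAbs : ℕ) : ℤ) = -s := by omega
        rw [this, neg_zsmul, hx, neg_zero]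
    · intro y
      obtain ⟨x, hx⟩ := hQ _ y hnat
      rw [← natCast_zsmul] at hx
      rcases Int.natAbs_eq s with h | h
      · refine ⟨x, ?_⟩
        change s • x = y
        rw [h]; exact hx
      · refine ⟨-x, ?_⟩
        change s • (-x) = y
        have : ((s.natAbs : ℕ) : ℤ) = -s := by omega
        rw [this] at hx
        rw [smul_neg, ← neg_zsmul, hx]
  surj y := ⟨⟨y, 1⟩, by simp⟩
  exists_of_eq := fun {x₁ x₂} h => ⟨1, congrArg (fun x => (1 : nonZeroDivisors ℤ) • x) h⟩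

theorem tfree_rank (Q : Type u) [AddCommGroup Q] (hQ : Dvs Q)
    (tQ : ∀ n : ℕ, 1 ≤ n → ∀ x : Q, n • x = 0 → x = 0) (cQ : #Q = Cardinal.continuum) :
    Module.rank (FractionRing ℤ) (LocalizedModule (nonZeroDivisors ℤ) Q) = Cardinal.continuum ∧
      Nonempty (LocalizedModule (nonZeroDivisors ℤ) Q ≃+ Q) := by
  have := loc_id Q hQ tQ
  have e := IsLocalizedModule.iso (nonZeroDivisors ℤ) (LinearMap.id : Q →ₗ[ℤ] Q)
  have h1 : #(LocalizedModule (nonZeroDivisors ℤ) Q) = Cardinal.continuum := by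
    rw [Cardinal.mk_congr e.toEquiv, cQ]
  refine ⟨?_, ⟨{ toEquiv := e.toEquiv, map_add' := fun x y => e.map_add' x y }⟩⟩
  have h2 : #(FractionRing ℤ) = ℵ₀ := by
    rw [FractionRing.cardinalMk]
    exact Cardinal.mk_int
  have : Infinite (FractionRing ℤ) := Cardinal.infinite_iff.2 (le_of_eq h2.symm)
  rw [← h1]
  apply Module.Free.rank_eq_mk_of_infinite_lt
  rw [h1, h2]
  simp [Cardinal.aleph0_lt_continuum]

theorem tfree_equiv (Q R : Type u) [AddCommGroup Q] [AddCommGroup R] (hQ : Dvs Q) (hR : Dvs R)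
    (tQ : ∀ n : ℕ, 1 ≤ n → ∀ x : Q, n • x = 0 → x = 0)
    (tR : ∀ n : ℕ, 1 ≤ n → ∀ x : R, n • x = 0 → x = 0)
    (cQ : #Q = Cardinal.continuum) (cR : #R = Cardinal.continuum) : Nonempty (Q ≃+ R) := by
  obtain ⟨r1, ⟨e1⟩⟩ := tfree_rank Q hQ tQ cQ
  obtain ⟨r2, ⟨e2⟩⟩ := tfree_rank R hR tR cR
  obtain ⟨e⟩ := nonempty_linearEquiv_of_rank_eq (R := FractionRing ℤ)
    (M := LocalizedModule (nonZeroDivisors ℤ) Q) (M₁ := LocalizedModule (nonZeroDivisors ℤ) R)
    (r1.trans r2.symm)
  exact ⟨e1.symm.trans (e.toAddEquiv.trans e2)⟩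

/-! ### the torsion subgroup -/

theorem mem_tor {A : Type u} [AddCommGroup A] {x : A} :
    x ∈ AddCommGroup.torsion A ↔ ∃ n : ℕ, 1 ≤ n ∧ n • x = 0 := by
  change IsOfFinAddOrder x ↔ _
  rw [isOfFinAddOrder_iff_nsmul_eq_zero]
  rfl

theorem tor_of_smul {A : Type u} [AddCommGroup A] {n : ℕ} (hn : 1 ≤ n) {x : A}
    (h : n • x ∈ AddCommGroup.torsion A) : x ∈ AddCommGroup.torsion A := by
  obtain ⟨m, hm, hmx⟩ := mem_tor.1 h
  refine mem_tor.2 ⟨n * m, Nat.mul_pos hn hm, ?_⟩
  rw [mul_nsmul, hmx]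

theorem dvs_tor {A : Type u} [AddCommGroup A] (hA : Dvs A) : Dvs (AddCommGroup.torsion A) := by
  intro n x hn
  obtain ⟨y, hy⟩ := hA n x.1 hn
  refine ⟨⟨y, tor_of_smul hn (by rw [hy]; exact x.2)⟩, Subtype.ext ?_⟩
  rw [AddSubgroup.coe_nsmul]
  exact hy

theorem dvs_quot {A : Type u} [AddCommGroup A] (hA : Dvs A) (H : AddSubgroup A) : Dvs (A ⧸ H) := by
  intro n x hn
  induction x using QuotientAddGroup.induction_on with
  | H z =>
    obtain ⟨y, hy⟩ := hA n z hn
    refine ⟨(y : A ⧸ H), ?_⟩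
    rw [← QuotientAddGroup.mk_nsmul, hy]

theorem tfree_quot {A : Type u} [AddCommGroup A] (n : ℕ) (hn : 1 ≤ n)
    (x : A ⧸ AddCommGroup.torsion A) (hx : n • x = 0) : x = 0 := by
  induction x using QuotientAddGroup.induction_on with
  | H z =>
    rw [← QuotientAddGroup.mk_nsmul, QuotientAddGroup.eq_zero_iff] at hx
    rw [QuotientAddGroup.eq_zero_iff]
    exact tor_of_smul hn hx

theorem card_tp_tor {A : Type u} [AddCommGroup A] (p : ℕ) (hp : p.Prime) :
    #(tp (AddCommGroup.torsion A) p) = #{x : A // p • x = 0} := by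
  refine Cardinal.mk_congr
    { toFun := fun x => ⟨((x : AddCommGroup.torsion A) : A), ?_⟩
      invFun := fun x => ⟨⟨x.1, mem_tor.2 ⟨p, hp.one_lt.le, x.2⟩⟩, mem_tp.2 (Subtype.ext ?_)⟩
      left_inv := fun x => rfl
      right_inv := fun x => rfl }
  · have h1 := congrArg (Subtype.val) (mem_tp.1 x.2)
    rw [AddSubgroup.coe_nsmul] at h1
    exact h1
  · rw [AddSubgroup.coe_nsmul]
    exact x.2

end LDVC

open LDVC

theorem t_DVC : DVS_Stmt.{u} → DVC_Stmt.{u} := by
  intro hDVS A B _ _ hA hB hp cA cB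
  obtain ⟨eA⟩ := hDVS A (AddCommGroup.torsion A) (dvs_tor hA)
  obtain ⟨eB⟩ := hDVS B (AddCommGroup.torsion B) (dvs_tor hB)
  obtain ⟨e1⟩ := tors_equiv (AddCommGroup.torsion A) (AddCommGroup.torsion B) (dvs_tor hA)
    (dvs_tor hB)
    (fun x => by
      obtain ⟨n, hn, h⟩ := mem_tor.1 x.2
      exact ⟨n, hn, Subtype.ext (by rw [AddSubgroup.coe_nsmul]; exact h)⟩)
    (fun x => by
      obtain ⟨n, hn, h⟩ := mem_tor.1 x.2
      exact ⟨n, hn, Subtype.ext (by rw [AddSubgroup.coe_nsmul]; exact h)⟩)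
    (fun p hp' => tp_equiv p hp' (by rw [card_tp_tor p hp', card_tp_tor p hp', hp p hp']))
  obtain ⟨e2⟩ := tfree_equiv (A ⧸ AddCommGroup.torsion A) (B ⧸ AddCommGroup.torsion B)
    (dvs_quot hA _) (dvs_quot hB _) tfree_quot tfree_quot cA cB
  exact ⟨eA.trans ((e1.prodCongr e2).trans eB.symm)⟩

end Pool.Agent.KEQ
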