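import Pool.Agent.KEQ.Grp

/-!
Divisible subgroups are direct summands.
-/

set_option autoImplicit false

namespace Pool.Agent.KEQ

universe u

namespace LDVS

/-- A divisible abelian group has the extension property. -/
lemma baer (A : Type u) [AddCommGroup A] (h : Dvs A) : Module.Baer ℤ A := by
  have h1 : ∀ {n : ℤ}, n ≠ 0 → Function.Surjective (fun a : A => n • a) := by
    intro n hn x
    obtain ⟨y, hy⟩ := h n.natAbs x (Nat.one_le_iff_ne_zero.mpr (Int.natAbs_ne_zero.mpr hn))
    rcases Int.natAbs_eq n with h2 | h2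
    · refine ⟨y, ?_⟩
      change n • y = x
      rw [h2, natCast_zsmul]
      exact hy
    · refine ⟨-y, ?_⟩
      change n • (-y) = x
      rw [h2, neg_smul, smul_neg, neg_neg, natCast_zsmul]
      exact hy
  letI : DivisibleBy A ℤ := divisibleByOfSMulRightSurj A ℤ h1
  exact Module.Baer.of_divisible A

end LDVS

open LDVS in
theorem t_DVS : DVS_Stmt.{u} := by
  intro M _ A hA
  have hinj : Function.Injective A.subtype := A.subtype_injective
  obtain ⟨r, hr⟩ := (baer A hA).extension_property_addMonoidHom A.subtype hinj (AddMonoidHom.id A)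
  have hr' : ∀ a : A, r (a : M) = a := fun a => DFunLike.congr_fun hr a
  refine ⟨AddEquiv.ofBijective (r.prod (QuotientAddGroup.mk' A)) ⟨?_, ?_⟩⟩
  · rw [injective_iff_map_eq_zero]
    intro x hx
    rw [AddMonoidHom.prod_apply, Prod.mk_eq_zero] at hx
    have hxA : x ∈ A := (QuotientAddGroup.eq_zero_iff x).mp hx.2
    have h1 := hr' ⟨x, hxA⟩
    rw [hx.1] at h1
    exact (congrArg Subtype.val h1).symm
  · rintro ⟨a, q⟩
    obtain ⟨y, rfl⟩ := QuotientAddGroup.mk_surjective q
    refine ⟨y + ((a - r y : A) : M), ?_⟩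
    rw [AddMonoidHom.prod_apply]
    refine Prod.ext ?_ ?_
    · change r (y + ((a - r y : A) : M)) = a
      rw [map_add, hr']
      abel
    · change QuotientAddGroup.mk (y + ((a - r y : A) : M)) = QuotientAddGroup.mk y
      rw [QuotientAddGroup.eq]
      have h2 : -(y + ((a - r y : A) : M)) + y = -((a - r y : A) : M) := by abel
      rw [h2]
      exact A.neg_mem (a - r y : A).2

end Pool.Agent.KEQ
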