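import Pool.Agent.KEQ.Grp

/-!
# Isomorphism classes of abelian groups
-/

set_option autoImplicit false

open Cardinal

namespace Pool.Agent.KEQ

universe u

/-- Isomorphism of abelian groups. -/
instance isoSetoid : Setoid AddCommGrpCat.{u} where
  r A B := Nonempty (A ≃+ B)
  iseqv := ⟨fun A => ⟨AddEquiv.refl A⟩, fun ⟨e⟩ => ⟨e.symm⟩, fun ⟨e⟩ ⟨f⟩ => ⟨e.trans f⟩⟩

/-- Isomorphism classes of abelian groups. -/
def Cl : Type (u + 1) := Quotient isoSetoid.{u}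

/-- The class of a group. -/
def cl (G : Type u) [AddCommGroup G] : Cl.{u} := Quotient.mk isoSetoid (AddCommGrpCat.of G)

theorem cl_eq {G H : Type u} [AddCommGroup G] [AddCommGroup H] : cl G = cl H ↔ Nonempty (G ≃+ H) :=
  Quotient.eq (r := isoSetoid)

theorem cl_surj (c : Cl.{u}) : ∃ (G : Type u) (_ : AddCommGroup G), c = cl G := by
  induction c using Quotient.inductionOn with
  | h G => exact ⟨G, inferInstance, rfl⟩

instance : Add Cl.{u} := ⟨Quotient.map₂ (fun A B => AddCommGrpCat.of (A × B))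
  (fun _ _ ⟨e⟩ _ _ ⟨f⟩ => ⟨e.prodCongr f⟩)⟩

theorem cl_add (G H : Type u) [AddCommGroup G] [AddCommGroup H] : cl G + cl H = cl (G × H) := rfl

instance : Zero Cl.{u} := ⟨cl PUnit.{u + 1}⟩

theorem cl_zero : cl PUnit.{u + 1} = 0 := rfl

instance : AddCommMonoid Cl.{u} where
  add_assoc a b c := by
    obtain ⟨A, _, rfl⟩ := cl_surj a
    obtain ⟨B, _, rfl⟩ := cl_surj b
    obtain ⟨C, _, rfl⟩ := cl_surj c
    exact cl_eq.2 ⟨AddEquiv.prodAssoc⟩
  zero_add a := by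
    obtain ⟨A, _, rfl⟩ := cl_surj a
    exact cl_eq.2 ⟨AddEquiv.uniqueProd⟩
  add_zero a := by
    obtain ⟨A, _, rfl⟩ := cl_surj a
    exact cl_eq.2 ⟨AddEquiv.prodUnique⟩
  add_comm a b := by
    obtain ⟨A, _, rfl⟩ := cl_surj a
    obtain ⟨B, _, rfl⟩ := cl_surj b
    exact cl_eq.2 ⟨AddEquiv.prodComm⟩
  nsmul := nsmulRec

theorem cl_pi (G : Type u) [AddCommGroup G] (n : ℕ) : cl (Fin n → G) = n • cl G := by
  induction n with
  | zero =>
    rw [zero_smul, ← cl_zero]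
    exact cl_eq.2 ⟨⟨⟨fun _ => PUnit.unit, fun _ => 0, fun x => Subsingleton.elim _ _,
      fun x => rfl⟩, fun x y => rfl⟩⟩
  | succ n ih =>
    rw [succ_nsmul, ← ih, cl_add]
    refine cl_eq.2 ⟨⟨⟨fun f => (fun i => f i.castSucc, f (Fin.last n)),
      fun x => Fin.snoc x.1 x.2, fun f => ?_, fun x => ?_⟩, fun f g => rfl⟩⟩
    · exact Fin.snoc_init_self f
    · ext <;> simp

/-- Classes of finitely generated groups. -/
def Fg (c : Cl.{u}) : Prop := ∃ (G : Type u) (_ : AddCommGroup G), Module.Finite ℤ G ∧ c = cl G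

theorem fg_add {a b : Cl.{u}} (ha : Fg a) (hb : Fg b) : Fg (a + b) := by
  obtain ⟨A, _, _, rfl⟩ := ha
  obtain ⟨B, _, _, rfl⟩ := hb
  exact ⟨A × B, inferInstance, inferInstance, rfl⟩

theorem fg_zero : Fg (0 : Cl.{u}) := ⟨PUnit, inferInstance, inferInstance, rfl⟩

theorem fg_nsmul {a : Cl.{u}} (ha : Fg a) (n : ℕ) : Fg (n • a) := by
  induction n with
  | zero => rw [zero_smul]; exact fg_zero
  | succ n ih => rw [succ_nsmul]; exact fg_add ih ha

theorem fg_sum {l : List Cl.{u}} (h : ∀ c ∈ l, Fg c) : Fg l.sum := by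
  induction l with
  | nil => exact fg_zero
  | cons a l ih =>
    rw [List.sum_cons]
    exact fg_add (h a (by simp)) (ih fun c hc => h c (by simp [hc]))

theorem fg_cancel (hC : CAN_Stmt.{u}) {a b c : Cl.{u}} (hc : Fg c) (h : a + c = b + c) : a = b := by
  obtain ⟨A, _, rfl⟩ := cl_surj a
  obtain ⟨B, _, rfl⟩ := cl_surj b
  obtain ⟨C, _, _, rfl⟩ := hc
  rw [cl_add, cl_add, cl_eq] at h
  exact cl_eq.2 (hC C A B h)

/-- The cardinality of the `p`-torsion. -/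
noncomputable def tr (p : ℕ) : Cl.{u} → Cardinal.{u} :=
  Quotient.lift (fun G : AddCommGrpCat.{u} => #{x : G // p • x = 0}) (by
    rintro A B ⟨e⟩
    refine Cardinal.mk_congr ⟨fun x => ⟨e x.1, ?_⟩, fun y => ⟨e.symm y.1, ?_⟩, fun x => ?_, fun y => ?_⟩
    · rw [← map_nsmul, x.2, map_zero]
    · rw [← map_nsmul, y.2, map_zero]
    · simp
    · simp)

theorem tr_cl (p : ℕ) (G : Type u) [AddCommGroup G] : tr p (cl G) = #{x : G // p • x = 0} := rfl

theorem tr_add (p : ℕ) (a b : Cl.{u}) : tr p (a + b) = tr p a * tr p b := by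
  obtain ⟨A, _, rfl⟩ := cl_surj a
  obtain ⟨B, _, rfl⟩ := cl_surj b
  rw [cl_add, tr_cl, tr_cl, tr_cl, Cardinal.mul_def]
  refine Cardinal.mk_congr ⟨fun x => (⟨x.1.1, ?_⟩, ⟨x.1.2, ?_⟩), fun y => ⟨(y.1.1, y.2.1), ?_⟩,
    fun x => rfl, fun y => rfl⟩
  · exact congrArg Prod.fst x.2
  · exact congrArg Prod.snd x.2
  · exact Prod.ext y.1.2 y.2.2

theorem tr_zero (p : ℕ) : tr p (0 : Cl.{u}) = 1 := by
  rw [← cl_zero, tr_cl, Cardinal.eq_one_iff_unique]
  exact ⟨⟨fun a b => Subtype.ext (Subsingleton.elim _ _)⟩, ⟨⟨PUnit.unit, rfl⟩⟩⟩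

end Pool.Agent.KEQ
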