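import Pool.Agent.KEQ.Theory

/-!
# One-cycles on K-equivalent varieties
-/

set_option autoImplicit false

open CategoryTheory

namespace Pool.Agent.KEQ

variable {G : GeoData} {T : Chow G}

/-- One-cycles along compositions of blow-ups. -/
theorem ch1_tower (T : Chow G) {Z X : G.V} (f : Z ⟶ X) (hf : Tower G f) (n : ℕ) (hX : G.dim X = n) :
    G.bir f ∧ ∀ w : T.C (n - 1) Z, T.push (n - 1) f w = 0 →
      (∀ (D : G.V) (i : D ⟶ Z), G.dvs i → G.small (i ≫ f) → T.pull (n - 1) i w = 0) → w = 0 := by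
  induction hf with
  | iso f hf =>
    have hb : G.bir f := T.birs.1 f hf
    refine ⟨hb, fun w hw _ => ?_⟩
    have h1 : T.pull (n - 1) f (T.pull (n - 1) (inv f) w) = w := by
      rw [← T.pulls.2, IsIso.hom_inv_id, T.pulls.1]
    rw [← h1, T.pushes.2 _ _ _ hb] at hw
    rw [← h1, hw, map_zero]
  | @step Z Y X E b j W c f hbl _ ih =>
    obtain ⟨hf, ih⟩ := ih hX
    obtain ⟨hc, hdim, hb, hj, hs⟩ := T.blows b j c hbl
    have hY : G.dim Y = n := (T.birs.2.2 f hf).trans hX
    have hbf : G.bir (b ≫ f) := T.birs.2.1 b f hb hf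
    refine ⟨hbf, fun w hw hi => ?_⟩
    have hmov : ∀ {W' : G.V} (g : W' ⟶ Y) (x : T.C (n - 1) Y), G.small g → T.pull (n - 1) g x = 0 := by
      intro W' g x hg
      have := hY
      subst this
      exact T.moving g x hg
    have hone : ∀ v : T.C (n - 1) Z, T.push (n - 1) b v = 0 → T.pull (n - 1) j v = 0 → v = 0 := by
      intro v h1 h2
      have := hY
      subst this
      exact T.blow_one b j c v hbl h1 h2
    have hw0 : w - T.pull (n - 1) b (T.push (n - 1) b w) = 0 := by
      apply hone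
      · rw [map_sub, T.pushes.2 _ _ _ hb, sub_self]
      · rw [map_sub, ← T.pulls.2, hmov (j ≫ b) _ hs, sub_zero]
        apply hi E j hj
        rw [← Category.assoc]
        exact T.smalls.1 _ _ hs hf
    have hwe : w = T.pull (n - 1) b (T.push (n - 1) b w) := sub_eq_zero.1 hw0
    have hy : T.push (n - 1) b w = 0 := by
      apply ih
      · rw [← T.pushes.1 _ _ _ _ hb hf, hw]
      · intro D i hd hsm
        obtain ⟨D', τ, i', hτ, hd', he⟩ := T.strict i b hd hb
        have h1 : T.pull (n - 1) i' w = 0 := by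
          apply hi D' i' hd'
          rw [← Category.assoc, he, Category.assoc]
          exact (T.smalls.2 τ _ hτ).2 hsm
        rw [hwe, ← T.pulls.2, he, T.pulls.2] at h1
        have h2 := T.pushes.2 (n - 1) τ (T.pull (n - 1) i (T.push (n - 1) b w)) hτ
        rw [h1, map_zero] at h2
        exact h2.symm
    rw [hwe, hy, map_zero]

/-- One-cycles along birational morphisms. -/
theorem ch1_bir {Z X : G.V} (f : Z ⟶ X) (hf : G.bir f) (n : ℕ) (hX : G.dim X = n)
    (w : T.C (n - 1) Z) (hw : T.push (n - 1) f w = 0)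
    (hi : ∀ (D : G.V) (i : D ⟶ Z), G.dvs i → G.small (i ≫ f) → T.pull (n - 1) i w = 0) : w = 0 := by
  obtain ⟨Z', h, hh, htow⟩ := T.hironaka f hf
  obtain ⟨hhf, key⟩ := ch1_tower T (h ≫ f) htow n hX
  have hZ : G.dim Z = n := (T.birs.2.2 f hf).trans hX
  have h0 : T.pull (n - 1) h w = 0 := by
    apply key
    · rw [T.pushes.1 _ _ _ _ hh hf, T.pushes.2 _ _ _ hh, hw]
    · intro D i hd hsm
      rw [← T.pulls.2]
      rcases T.divisors i h hd hh with h1 | h1
      · subst hZ
        exact T.moving (i ≫ h) w h1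
      · apply hi D (i ≫ h) h1
        rwa [Category.assoc]
  have h1 := T.pushes.2 (n - 1) h w hh
  rw [h0, map_zero] at h1
  exact h1.symm

/-- The pull-back of one-cycles is the same on both sides. -/
theorem ch1_pull {Z X Y : G.V} (f : Z ⟶ X) (g : Z ⟶ Y) (hf : G.bir f) (hg : G.bir g)
    (hE : SameExc G f g) (n : ℕ) (hX : G.dim X = n) (x : T.C (n - 1) X) :
    T.pull (n - 1) g (T.push (n - 1) g (T.pull (n - 1) f x)) = T.pull (n - 1) f x := by
  have hZ : G.dim Z = n := (T.birs.2.2 f hf).trans hX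
  have hY : G.dim Y = n := (T.birs.2.2 g hg).symm.trans hZ
  have h0 : T.pull (n - 1) f x - T.pull (n - 1) g (T.push (n - 1) g (T.pull (n - 1) f x)) = 0 := by
    apply ch1_bir g hg n hY
    · rw [map_sub, T.pushes.2 _ _ _ hg, sub_self]
    · intro D i hd hsm
      have hsf : G.small (i ≫ f) := (hE D i hd).2 hsm
      rw [map_sub, ← T.pulls.2, ← T.pulls.2]
      have e1 : T.pull (n - 1) (i ≫ f) x = 0 := by
        subst hX
        exact T.moving (i ≫ f) x hsf
      have e2 : T.pull (n - 1) (i ≫ g) (T.push (n - 1) g (T.pull (n - 1) f x)) = 0 := by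
        have := hY
        subst this
        exact T.moving (i ≫ g) _ hsm
      rw [e1, e2, sub_zero]
  exact (sub_eq_zero.1 h0).symm

theorem SameExc.symm {X Y Z : G.V} {f : Z ⟶ X} {g : Z ⟶ Y} (h : SameExc G f g) :
    SameExc G g f := fun D i hi => (h D i hi).symm

/-- The groups of one-cycles modulo rational equivalence are isomorphic, and the isomorphism respects
algebraic equivalence. -/
theorem ch1_iso {X Y Z : G.V} (f : Z ⟶ X) (g : Z ⟶ Y) (hf : G.bir f) (hg : G.bir g)
    (hE : SameExc G f g) (n : ℕ) (hX : G.dim X = n) :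
    ∃ e : T.C (n - 1) X ≃+ T.C (n - 1) Y, ∀ x, e x = T.push (n - 1) g (T.pull (n - 1) f x) ∧
      T.pull (n - 1) g (e x) = T.pull (n - 1) f x ∧
      (x ∈ T.Alg (n - 1) X ↔ e x ∈ T.Alg (n - 1) Y) := by
  have hZ : G.dim Z = n := (T.birs.2.2 f hf).trans hX
  have hY : G.dim Y = n := (T.birs.2.2 g hg).symm.trans hZ
  refine ⟨⟨⟨fun x => T.push (n - 1) g (T.pull (n - 1) f x),
    fun y => T.push (n - 1) f (T.pull (n - 1) g y), fun x => ?_, fun y => ?_⟩,
    fun x y => by simp⟩, fun x => ⟨rfl, ch1_pull f g hf hg hE n hX x, fun hx => ?_, fun hx => ?_⟩⟩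
  · beta_reduce
    rw [ch1_pull f g hf hg hE n hX, T.pushes.2 _ _ _ hf]
  · beta_reduce
    rw [ch1_pull g f hg hf hE.symm n hY, T.pushes.2 _ _ _ hg]
  · exact T.algs.2 _ _ _ hg (T.algs.1 _ _ _ hx)
  · have h1 := T.algs.2 _ f _ hf (T.algs.1 _ g _ hx)
    have h2 : T.push (n - 1) f (T.pull (n - 1) g (T.push (n - 1) g (T.pull (n - 1) f x))) = x := by
      rw [ch1_pull f g hf hg hE n hX, T.pushes.2 _ _ _ hf]
    change T.push (n - 1) f (T.pull (n - 1) g (T.push (n - 1) g (T.pull (n - 1) f x))) ∈ _ at h1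
    rwa [h2] at h1

end Pool.Agent.KEQ
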