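import Pool.Agent.KEQ.Theory
import Pool.Agent.KEQ.Gr

/-!
# Invariants with a blow-up formula
-/

set_option autoImplicit false

open CategoryTheory Cardinal

namespace Pool.Agent.KEQ

universe u v

variable {G : GeoData} {K : G.V → Type u} [∀ X, AddCommGroup (K X)] {T : Theory G K}

/-- The sum of an invariant over a list of varieties with multiplicities. -/
def ls {M : Type v} [AddCommMonoid M] (μ : G.V → M) (L : List (G.V × ℕ)) : M :=
  (L.map fun p => p.2 • μ p.1).sum

/-- Invariants with a blow-up formula. -/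
def Adv {M : Type v} [AddCommMonoid M] (μ : G.V → M) : Prop :=
  (∀ X Y : G.V, Nonempty (X ≅ Y) → μ X = μ Y) ∧
    ∀ (X' X E Z : G.V) (b : X' ⟶ X) (j : E ⟶ X') (c : ℕ), G.blow b j Z c →
      μ X' = μ X + (c - 1) • μ Z

theorem chain (T : Geo G) {X Y : G.V} (h : Relation.ReflTransGen (Step G) X Y) (n : ℕ)
    (hX : G.dim X = n) : G.dim Y = n ∧ ∃ L L' : List (G.V × ℕ), (∀ p ∈ L, G.dim p.1 + 2 ≤ n) ∧
      (∀ p ∈ L', G.dim p.1 + 2 ≤ n) ∧ ∀ (M : Type v) [AddCommMonoid M] (μ : G.V → M), Adv μ →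
        μ X + ls μ L = μ Y + ls μ L' := by
  induction h with
  | refl => exact ⟨hX, [], [], by simp, by simp, fun M _ μ _ => rfl⟩
  | @tail Y' Y _ hs ih =>
    obtain ⟨hY', L, L', hL, hL', key⟩ := ih
    rcases hs with ⟨⟨i⟩⟩ | ⟨E, Z, b, j, c, hb⟩ | ⟨E, Z, b, j, c, hb⟩
    · refine ⟨?_, L, L', hL, hL', fun M _ μ hμ => ?_⟩
      · rw [← T.birs.2.2 i.hom (T.birs.1 i.hom inferInstance), hY']
      · rw [key M μ hμ, hμ.1 Y' Y ⟨i⟩]
    · obtain ⟨hc, hd, hbir, -, -⟩ := T.blows b j c hb
      refine ⟨(T.birs.2.2 b hbir).trans hY', (Z, c - 1) :: L, L', ?_, hL', fun M _ μ hμ => ?_⟩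
      · intro p hp
        rcases List.mem_cons.1 hp with rfl | hp
        · change G.dim Z + 2 ≤ n
          omega
        · exact hL p hp
      · have h1 := key M μ hμ
        have h2 := hμ.2 _ _ _ _ b j c hb
        rw [h2]
        simp only [ls, List.map_cons, List.sum_cons] at h1 ⊢
        rw [add_left_comm, h1, add_left_comm, add_assoc]
    · obtain ⟨hc, hd, hbir, -, -⟩ := T.blows b j c hb
      have hY : G.dim Y = n := (T.birs.2.2 b hbir).symm.trans hY'
      refine ⟨hY, L, (Z, c - 1) :: L', hL, ?_, fun M _ μ hμ => ?_⟩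
      · intro p hp
        rcases List.mem_cons.1 hp with rfl | hp
        · change G.dim Z + 2 ≤ n
          omega
        · exact hL' p hp
      · have h1 := key M μ hμ
        have h2 := hμ.2 _ _ _ _ b j c hb
        rw [h2] at h1
        simp only [ls, List.map_cons, List.sum_cons] at h1 ⊢
        rw [h1, add_assoc]

theorem adv_S (T : Theory G K) : Adv fun X => cl (K X ⧸ T.A X) := by
  constructor
  · intro X Y h
    obtain ⟨e, he⟩ := T.kIso h
    refine cl_eq.2 ⟨QuotientAddGroup.congr (T.A X) (T.A Y) e ?_⟩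
    ext y
    rw [AddSubgroup.mem_map]
    constructor
    · rintro ⟨x, hx, rfl⟩
      exact (he x).1 hx
    · intro hy
      refine ⟨e.symm y, (he _).2 ?_, ?_⟩
      · rwa [e.apply_symm_apply]
      · exact e.apply_symm_apply y
  · intro X' X E Z b j c h
    obtain ⟨e, he⟩ := T.kBlow b j c h
    rw [← cl_pi, cl_add]
    let φ : K X' →+ (K X ⧸ T.A X) × (Fin (c - 1) → K Z ⧸ T.A Z) :=
      { toFun := fun x => ((e x).1, fun t => ((e x).2 t : K Z ⧸ T.A Z))
        map_zero' := by simp; rfl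
        map_add' := fun x y => by simp; rfl }
    have hφ : Function.Surjective φ := by
      rintro ⟨a, z⟩
      obtain ⟨a', rfl⟩ := QuotientAddGroup.mk_surjective a
      choose z' hz using fun t => QuotientAddGroup.mk_surjective (z t)
      refine ⟨e.symm (a', z'), ?_⟩
      change (((e (e.symm (a', z'))).1 : K X ⧸ T.A X),
        fun t => ((e (e.symm (a', z'))).2 t : K Z ⧸ T.A Z)) = _
      rw [e.apply_symm_apply]
      exact Prod.ext rfl (funext hz)
    have hk : φ.ker = T.A X' := by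
      ext x
      rw [AddMonoidHom.mem_ker, he x]
      constructor
      · intro hx
        refine ⟨(QuotientAddGroup.eq_zero_iff _).1 (congrArg Prod.fst hx), fun t => ?_⟩
        exact (QuotientAddGroup.eq_zero_iff _).1 (congrFun (congrArg Prod.snd hx) t)
      · intro hx
        exact Prod.ext ((QuotientAddGroup.eq_zero_iff _).2 hx.1)
          (funext fun t => (QuotientAddGroup.eq_zero_iff _).2 (hx.2 t))
    exact cl_eq.2 ⟨(QuotientAddGroup.quotientAddEquivOfEq hk.symm).trans
      (QuotientAddGroup.quotientKerEquivOfSurjective φ hφ)⟩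

theorem adv_A (T : Theory G K) : Adv fun X => cl (T.A X) := by
  constructor
  · intro X Y h
    obtain ⟨e, he⟩ := T.kIso h
    refine cl_eq.2 ⟨⟨⟨fun x => ⟨e x.1, (he _).1 x.2⟩, fun y => ⟨e.symm y.1, (he _).2 (by
      rw [e.apply_symm_apply]; exact y.2)⟩, fun x => by simp, fun y => by simp⟩,
      fun x y => Subtype.ext (by simp)⟩⟩
  · intro X' X E Z b j c h
    obtain ⟨e, he⟩ := T.kBlow b j c h
    rw [← cl_pi, cl_add]
    refine cl_eq.2 ⟨⟨⟨fun x => (⟨(e x.1).1, ((he _).1 x.2).1⟩,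
      fun t => ⟨(e x.1).2 t, ((he _).1 x.2).2 t⟩), fun y => ⟨e.symm (y.1.1, fun t => (y.2 t).1),
        (he _).2 ?_⟩, fun x => ?_, fun y => ?_⟩, fun x y => ?_⟩⟩
    · rw [e.apply_symm_apply]
      exact ⟨y.1.2, fun t => (y.2 t).2⟩
    · apply Subtype.ext
      change e.symm ((e x.1).1, fun t => (e x.1).2 t) = x.1
      exact e.symm_apply_apply x.1
    · refine Prod.ext (Subtype.ext ?_) (funext fun t => Subtype.ext ?_)
      · change (e (e.symm (y.1.1, fun t => (y.2 t).1))).1 = y.1.1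
        rw [e.apply_symm_apply]
      · change (e (e.symm (y.1.1, fun t => (y.2 t).1))).2 t = (y.2 t).1
        rw [e.apply_symm_apply]
    · refine Prod.ext (Subtype.ext ?_) (funext fun t => Subtype.ext ?_)
      · change (e (x.1 + y.1)).1 = (e x.1).1 + (e y.1).1
        rw [map_add, Prod.fst_add]
      · change (e (x.1 + y.1)).2 t = (e x.1).2 t + (e y.1).2 t
        rw [map_add, Prod.snd_add, Pi.add_apply]

/-- The class of the group of the integral Hodge classes. -/
def ch (T : Theory G K) (X : G.V) : Cl.{u} := cl (ULift.{u} (T.H X))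

theorem adv_H (T : Theory G K) : Adv (ch T) := by
  constructor
  · intro X Y h
    obtain ⟨e⟩ := T.hodge.2.1 h
    exact cl_eq.2 ⟨(AddEquiv.ulift.trans e).trans AddEquiv.ulift.symm⟩
  · intro X' X E Z b j c h
    obtain ⟨⟨e⟩, -⟩ := T.hodge.2.2.2 b j c h
    rw [ch, ch, ch, ← cl_pi, cl_add]
    refine cl_eq.2 ⟨(AddEquiv.ulift.trans e).trans (AddEquiv.ulift.symm.prodCongr
      (AddEquiv.piCongrRight fun _ => AddEquiv.ulift.symm))⟩

/-- The sum of the odd Betti numbers. -/
def bo (T : Theory G K) (X : G.V) : ℕ := ∑ i ∈ Finset.range (G.dim X + 1), T.b (2 * i + 1) X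

theorem bo_part (T : Theory G K) (Z : G.V) (n t : ℕ) (h : G.dim Z + t ≤ n) :
    (∑ i ∈ Finset.range (n + 1), if 2 * t ≤ 2 * i + 1 then T.b (2 * i + 1 - 2 * t) Z else 0) =
      bo T Z := by
  obtain ⟨r, hr, hd⟩ : ∃ r, n + 1 = t + (r + 1) ∧ G.dim Z ≤ r := ⟨n - t, by omega, by omega⟩
  rw [hr, Finset.sum_range_add, Finset.sum_eq_zero, zero_add]
  · rw [bo]
    symm
    refine (Finset.sum_subset ?_ ?_).trans (Finset.sum_congr rfl fun x _ => ?_)
    · intro x hx
      rw [Finset.mem_range] at hx ⊢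
      omega
    · intro x _ hx
      rw [Finset.mem_range] at hx
      exact T.betti.1 Z _ (by omega)
    · rw [if_pos (by omega)]
      congr 1
      omega
  · intro i hi
    rw [Finset.mem_range] at hi
    rw [if_neg (by omega)]

theorem bo_iso (T : Theory G K) {X Y : G.V} (h : Nonempty (X ≅ Y)) : bo T X = bo T Y := by
  obtain ⟨i⟩ := h
  rw [bo, bo, T.birs.2.2 i.hom (T.birs.1 i.hom inferInstance)]
  exact Finset.sum_congr rfl fun k _ => T.betti.2.1 ⟨i⟩ _

theorem bo_blow (T : Theory G K) {X' X E Z : G.V} (b : X' ⟶ X) (j : E ⟶ X') (c : ℕ)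
    (h : G.blow b j Z c) : bo T X' = bo T X + (c - 1) * bo T Z := by
  obtain ⟨hc, hd, hbir, -, -⟩ := T.blows b j c h
  have hdim := T.birs.2.2 b hbir
  rw [bo, Finset.sum_congr rfl fun i _ => (T.betti.2.2.2 b j c h (2 * i + 1)).1, Finset.sum_add_distrib,
    Finset.sum_comm, hdim, Finset.sum_congr rfl fun t ht => bo_part T Z (G.dim X) t ?_]
  · rw [Finset.sum_const, Nat.card_Ico, smul_eq_mul]
    rfl
  · rw [Finset.mem_Ico] at ht
    omega

theorem adv_bo (T : Theory G K) : Adv fun X => ULift.up.{u + 1} (bo T X) := by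
  constructor
  · intro X Y h
    exact congrArg _ (bo_iso T h)
  · intro X' X E Z b j c h
    apply ULift.down_injective
    change bo T X' = bo T X + ((c - 1) • ULift.up.{u + 1} (bo T Z)).down
    rw [bo_blow T b j c h]
    rfl

end Pool.Agent.KEQ
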