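import Pool.Agent.KEQ.Main
import Pool.Agent.KEQ.DVS

/-!
# The isomorphism respects algebraic equivalence
-/

set_option autoImplicit false

open CategoryTheory Cardinal

namespace Pool.Agent.KEQ

universe u

/-- Divisible subgroups are direct summands, with the projection to the quotient. -/
theorem dvs_split (M : Type u) [AddCommGroup M] (A : AddSubgroup M) (hA : Dvs A) :
    ∃ e : M ≃+ (A × (M ⧸ A)), ∀ x, x ∈ A ↔ (e x).2 = 0 := by
  have hinj : Function.Injective A.subtype := A.subtype_injective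
  obtain ⟨r, hr⟩ := (LDVS.baer A hA).extension_property_addMonoidHom A.subtype hinj
    (AddMonoidHom.id A)
  have hr' : ∀ a : A, r (a : M) = a := fun a => DFunLike.congr_fun hr a
  refine ⟨AddEquiv.ofBijective (r.prod (QuotientAddGroup.mk' A)) ⟨?_, ?_⟩, fun x => ?_⟩
  · rw [injective_iff_map_eq_zero]
    intro x hx
    rw [AddMonoidHom.prod_apply, Prod.mk_eq_zero] at hx
    have hxA : x ∈ A := (QuotientAddGroup.eq_zero_iff x).mp hx.2
    have h1 := hr' ⟨x, hxA⟩
    rw [hx.1] at h1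
    exact (congrArg Subtype.val h1).symm
  · rintro ⟨a, q⟩
    obtain ⟨y, rfl⟩ := QuotientAddGroup.mk_surjective q
    refine ⟨y + ((a - r y : A) : M), ?_⟩
    rw [AddMonoidHom.prod_apply]
    refine Prod.ext ?_ ?_
    · change r (y + ((a - r y : A) : M)) = a
      rw [map_add, hr']
      abel
    · change QuotientAddGroup.mk (y + ((a - r y : A) : M)) = QuotientAddGroup.mk y
      rw [QuotientAddGroup.eq]
      have h2 : -(y + ((a - r y : A) : M)) + y = -((a - r y : A) : M) := by abel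
      rw [h2]
      exact A.neg_mem (a - r y : A).2
  · exact (QuotientAddGroup.eq_zero_iff x).symm

/-- `K_0` of K-equivalent varieties of dimension at most four. -/
theorem final (hC : CAN_Stmt.{u}) (hF : FGM_Stmt) (hDC : DVC_Stmt.{u}) {G : GeoData}
    {K : G.V → Type u} [∀ X, AddCommGroup (K X)] (T : Theory G K) (X Y : G.V) (h : KEq G X Y)
    (hd : G.dim X ≤ 4) : ∃ e : K X ≃+ K Y, ∀ x, x ∈ T.A X ↔ e x ∈ T.A Y := by
  obtain ⟨eX, hX⟩ := dvs_split (K X) (T.A X) (dvs_A T X)
  obtain ⟨eY, hY⟩ := dvs_split (K Y) (T.A Y) (dvs_A T Y)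
  obtain ⟨a⟩ := cl_eq.1 (part_A T hDC h hd)
  obtain ⟨s⟩ := cl_eq.1 (part_S T hC hF h hd)
  refine ⟨(eX.trans (a.prodCongr s)).trans eY.symm, fun x => ?_⟩
  rw [hX, hY]
  change _ ↔ (eY (eY.symm (a (eX x).1, s (eX x).2))).2 = 0
  rw [eY.apply_symm_apply]
  exact (map_eq_zero_iff s s.injective).symm

end Pool.Agent.KEQ
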