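import Mathlib

/-!
# K_0 of K-equivalent fourfolds (MP_e37830_ag): statements on abelian groups
-/

set_option autoImplicit false

namespace Pool.Agent.KEQ

open Cardinal

universe u

/-- Divisible abelian groups. -/
def Dvs (A : Type u) [AddCommGroup A] : Prop := ∀ (n : ℕ) (x : A), 1 ≤ n → ∃ y : A, n • y = x

/-- The number of elements of `M / m M`. -/
noncomputable def qm (M : Type u) [AddCommGroup M] (m : ℕ) : ℕ :=
  Nat.card (M ⧸ (nsmulAddMonoidHom m : M →+ M).range)

/-- The cardinality of `A` modulo its torsion subgroup. -/
noncomputable def tf (A : Type u) [AddCommGroup A] : Cardinal.{u} :=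
  #(A ⧸ AddCommGroup.torsion A)

/-- CAN. Finitely generated groups cancel (Cohn, Walker).

Proof. Let `Canc F` be the property. It is stable under isomorphism and products
(`G × (F × F') ≅ (G × F) × F'`), so by the structure theorem
(`AddCommGroup.equiv_free_prod_directSum_zmod`) it is enough to treat `F = ℤ` and `F = ZMod (p ^ e)`.

`F = ℤ`: it is enough that for two surjective homomorphisms `f, g : A → ℤ` the kernels are isomorphic
(`A = G × ℤ`, `f = snd`, `g = snd ∘ e`). Let `g (ker f) = m ℤ`. If `m = 0` then `g` factors through `f`,
so `g = k f` with `k` a unit and the kernels are equal. Otherwise `ker f → m ℤ ≅ ℤ` splits, so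
`ker f ≅ (ker f ∩ ker g) × ℤ`; symmetrically for `ker g` (`f (ker g) ≠ 0`, else the kernels are equal and
`m = 0`).

`F = ZMod (p ^ e)`: write the isomorphism `G × F → H × F` as a matrix `(a, b; c, d)` and its inverse as
`(a', b'; c', d')`, so `c' b + d' d = 1` in `End F`, which is the local ring `ZMod (p ^ e)` (`F` cyclic).
If `d' d` is a unit then `d` is a unit (finite). Otherwise `u = c' b` is a unit; compose the isomorphism
with the automorphism `(h, f) ↦ (h, f + s h)` of `H × F`, `s = (1 - d) u⁻¹ c'`: the new entry `d` is
`d + s b = 1`. If `d` is a unit then `a - b d⁻¹ c : G → H` is an isomorphism (Schur complement). -/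
def CAN_Stmt : Prop := ∀ (F G H : Type u) [AddCommGroup F] [AddCommGroup G] [AddCommGroup H]
  [Module.Finite ℤ F], Nonempty ((G × F) ≃+ (H × F)) → Nonempty (G ≃+ H)

/-- FGM. A finitely generated group is determined by the numbers `|M / m M|`, `m ≥ 1`.

Proof. Structure theorem (`AddCommGroup.equiv_free_prod_directSum_zmod`):
`M ≅ ℤ^n × ⨁_i ZMod (p_i ^ e_i)`, so `|M / m M| = m^n ∏_i gcd (m, p_i ^ e_i)`. With `m = p ^ k`:
`k n + ∑_{p_i = p} min k e_i` is the same for `M` and `N`. A prime `p` different from all `p_i`, `q_j`
gives the same `n`; then the second differences in `k` give, for all `p` and `k ≥ 1`, the same number of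
indices with `(p_i, e_i) = (p, k)`; so there is a bijection of the indices with `e_i ≥ 1` that respects
`(p_i, e_i)`. (The summands with `e_i = 0` are trivial groups.) -/
def FGM_Stmt : Prop := ∀ (M N : Type) [AddCommGroup M] [AddCommGroup N] [Module.Finite ℤ M]
  [Module.Finite ℤ N], (∀ m : ℕ, 1 ≤ m → qm M m = qm N m) → Nonempty (M ≃+ N)

/-- DVS. Divisible subgroups are direct summands.

Proof. `A` is an injective object (`AddCommGrpCat.injective_of_divisible` or Baer's criterion
`Module.Baer`), so the identity of `A` extends to `r : M → A`; take `e x = (r x, x mod A)`. -/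
def DVS_Stmt : Prop := ∀ (M : Type u) [AddCommGroup M] (A : AddSubgroup M), Dvs A →
  Nonempty (M ≃+ (A × (M ⧸ A)))

/-- DVC. Classification of divisible groups, the case needed here.

Proof. (1) The torsion subgroup `T A` is divisible, so `A ≅ T A × A / T A` (DVS). (2) `A / T A` is
divisible and torsion free, a rational vector space of cardinality `𝔠`, so of dimension `𝔠`; hence
`A / T A ≅ B / T B`. (3) `A[p]`, `B[p]` are vector spaces over `ZMod p` of the same cardinality, so
isomorphic. The subgroup `So A` of the elements of squarefree order is the direct sum of the `A[p]`, so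
`So A ≅ So B`. This extends to `f : T A → T B` (`T B` divisible, hence injective). `f` is injective: a
nonzero element of the kernel has a multiple of prime order, in `So A`. Its image is divisible, so
`T B = f (T A) ⊕ C`, and `C` has no element of prime order (they lie in `So B = f (So A)`), so `C = 0`. -/
def DVC_Stmt : Prop := ∀ (A B : Type u) [AddCommGroup A] [AddCommGroup B], Dvs A → Dvs B →
  (∀ p : ℕ, p.Prime → #{x : A // p • x = 0} = #{x : B // p • x = 0}) →
  tf A = Cardinal.continuum → tf B = Cardinal.continuum → Nonempty (A ≃+ B)

end Pool.Agent.KEQ
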