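import Pool.Agent.KEQ.Ch1
import Pool.Agent.KEQ.Bit
import Pool.Agent.KEQ.Chain
import Pool.Agent.KEQ.DVC

/-!
# K_0 of K-equivalent varieties of dimension at most four
-/

set_option autoImplicit false

open CategoryTheory Cardinal

namespace Pool.Agent.KEQ

universe u v

variable {G : GeoData} {K : G.V → Type u} [∀ X, AddCommGroup (K X)] {T : Theory G K}

theorem KEq.dim (T : Geo G) {X Y : G.V} (h : KEq G X Y) : G.dim X = G.dim Y := by
  obtain ⟨Z, f, g, hf, hg, hK⟩ := h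
  exact (T.birs.2.2 f hf).symm.trans (T.birs.2.2 g hg)

theorem KEq.chain (T : Theory G K) {X Y : G.V} (h : KEq G X Y) (n : ℕ)
    (hX : G.dim X = n) : ∃ L L' : List (G.V × ℕ), (∀ p ∈ L, G.dim p.1 + 2 ≤ n) ∧
      (∀ p ∈ L', G.dim p.1 + 2 ≤ n) ∧ ∀ (M : Type v) [AddCommMonoid M] (μ : G.V → M), Adv μ →
        μ X + ls μ L = μ Y + ls μ L' := by
  obtain ⟨Z, f, g, hf, hg, hK⟩ := h
  exact (Pool.Agent.KEQ.chain T.toGeo (T.weak f g hf hg) n hX).2

theorem ls_congr {M : Type v} [AddCommMonoid M] (μ ν : G.V → M) (L : List (G.V × ℕ))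
    (h : ∀ p ∈ L, μ p.1 = ν p.1) : ls μ L = ls ν L := by
  rw [ls, ls]
  congr 1
  exact List.map_congr_left fun p hp => by rw [h p hp]

theorem ch_fg (T : Theory G K) (X : G.V) : Fg (ch T X) := by
  have := T.hodge.1 X
  exact ⟨ULift.{u} (T.H X), inferInstance,
    Module.Finite.equiv (ULift.moduleEquiv (R := ℤ) (M := T.H X)).symm, rfl⟩

theorem ls_fg (T : Theory G K) (L : List (G.V × ℕ)) : Fg (ls (ch T) L) := by
  apply fg_sum
  intro c hc
  obtain ⟨p, -, rfl⟩ := List.mem_map.1 hc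
  exact fg_nsmul (ch_fg T p.1) _

/-- The classes modulo algebraic equivalence. -/
theorem part_S (T : Theory G K) (hC : CAN_Stmt.{u}) (hF : FGM_Stmt) {X Y : G.V} (h : KEq G X Y)
    (hd : G.dim X ≤ 4) : cl (K X ⧸ T.A X) = cl (K Y ⧸ T.A Y) := by
  obtain ⟨L, L', hL, hL', key⟩ := h.chain T (G.dim X) rfl
  have hs : ∀ L : List (G.V × ℕ), (∀ p ∈ L, G.dim p.1 + 2 ≤ G.dim X) →
      ls (fun X => cl (K X ⧸ T.A X)) L = ls (ch T) L := by
    intro L hL
    refine ls_congr _ _ L fun p hp => ?_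
    obtain ⟨e⟩ := (T.surfaces p.1 (by have := hL p hp; omega)).1
    exact cl_eq.2 ⟨e.trans AddEquiv.ulift.symm⟩
  have hH := key Cl.{u} _ (adv_H T)
  have hXY : ch T X = ch T Y := by
    obtain ⟨e⟩ := hodge_iso T hF h
    exact cl_eq.2 ⟨(AddEquiv.ulift.trans e).trans AddEquiv.ulift.symm⟩
  rw [hXY] at hH
  have h1 : ls (ch T) L = ls (ch T) L' := by
    refine fg_cancel hC (c := ch T Y) (ch_fg T Y) ?_
    rw [add_comm, hH, add_comm]
  have h2 := key Cl.{u} _ (adv_S T)
  rw [hs L hL, hs L' hL', ← h1] at h2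
  exact fg_cancel hC (ls_fg T L) h2

theorem card_cancel (a b : Cardinal.{u}) (n : ℕ) (hn : n ≠ 0) (h : a * n = b * n) : a = b := by
  have key : ∀ a b : Cardinal.{u}, a * n = b * n → a < ℵ₀ → a = b := by
    intro a b h ha
    have hb : b < ℵ₀ := by
      refine lt_of_le_of_lt (b := b * n) ?_ ?_
      · exact le_mul_of_one_le_right zero_le (by exact_mod_cast Nat.one_le_iff_ne_zero.2 hn)
      · rw [← h]
        exact Cardinal.mul_lt_aleph0 ha (Cardinal.natCast_lt_aleph0)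
    obtain ⟨a, rfl⟩ := Cardinal.lt_aleph0.1 ha
    obtain ⟨b, rfl⟩ := Cardinal.lt_aleph0.1 hb
    have h1 : a * n = b * n := by exact_mod_cast h
    rw [Nat.eq_of_mul_eq_mul_right (Nat.pos_of_ne_zero hn) h1]
  rcases lt_or_ge a ℵ₀ with ha | ha
  · exact key a b h ha
  · rcases lt_or_ge b ℵ₀ with hb | hb
    · exact (key b a h.symm hb).symm
    · rwa [Cardinal.mul_eq_left ha ((Cardinal.natCast_lt_aleph0).le.trans ha) (by exact_mod_cast hn),
        Cardinal.mul_eq_left hb ((Cardinal.natCast_lt_aleph0).le.trans hb) (by exact_mod_cast hn)] at h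

/-- The weighted sum of the odd Betti numbers. -/
def lb (T : Theory G K) (L : List (G.V × ℕ)) : ℕ := (L.map fun p => p.2 * bo T p.1).sum

theorem ls_bo (T : Theory G K) (L : List (G.V × ℕ)) :
    ls (fun X => ULift.up.{u + 1} (bo T X)) L = ULift.up (lb T L) := by
  induction L with
  | nil => rfl
  | cons p L ih =>
    have h1 : ls (fun X => ULift.up.{u + 1} (bo T X)) (p :: L) =
      p.2 • ULift.up.{u + 1} (bo T p.1) + ls (fun X => ULift.up.{u + 1} (bo T X)) L := by
      simp [ls]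
    rw [h1, ih]
    apply ULift.down_injective
    simp [lb]

theorem tr_nsmul (p : ℕ) (c : Cl.{u}) (m : ℕ) (k : ℕ) (h : tr p c = (k : ℕ)) :
    tr p (m • c) = ((k ^ m : ℕ) : Cardinal.{u}) := by
  induction m with
  | zero => simp [tr_zero]
  | succ m ih => rw [succ_nsmul, tr_add, ih, h, pow_succ, Nat.cast_mul]

theorem tr_ls (T : Theory G K) (p : ℕ) (hp : p.Prime) (L : List (G.V × ℕ))
    (hL : ∀ q ∈ L, G.dim q.1 ≤ 2) :
    tr p (ls (fun X => cl (T.A X)) L) = ((p ^ lb T L : ℕ) : Cardinal.{u}) := by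
  induction L with
  | nil =>
    change tr p (0 : Cl.{u}) = _
    simp [tr_zero, lb]
  | cons q L ih =>
    have h1 : ls (fun X => cl (T.A X)) (q :: L) =
      q.2 • cl (T.A q.1) + ls (fun X => cl (T.A X)) L := by
      simp [ls]
    have h2 : tr p (cl (T.A q.1)) = ((p ^ bo T q.1 : ℕ) : Cardinal.{u}) := by
      have h3 := (T.surfaces q.1 (hL q (by simp))).2 p hp
      rw [tr_cl]
      have h4 : Nat.card {x : T.A q.1 // p • x = 0} ≠ 0 := by
        rw [h3]
        exact pow_ne_zero _ hp.ne_zero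
      have h5 : Finite {x : T.A q.1 // p • x = 0} := Nat.finite_of_card_ne_zero h4
      rw [← Nat.cast_card, h3]
      rfl
    rw [h1, tr_add, ih fun q' hq' => hL q' (by simp [hq']), tr_nsmul p _ _ _ h2]
    simp only [lb, List.map_cons, List.sum_cons]
    rw [pow_add, ← pow_mul, Nat.cast_mul, mul_comm (bo T q.1)]

/-- The torsion of the algebraically trivial classes. -/
theorem part_T (T : Theory G K) {X Y : G.V} (h : KEq G X Y) (hd : G.dim X ≤ 4) (p : ℕ) (hp : p.Prime) :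
    tr p (cl (T.A X)) = tr p (cl (T.A Y)) := by
  obtain ⟨L, L', hL, hL', key⟩ := h.chain T (G.dim X) rfl
  have h1 := key _ _ (adv_bo T)
  rw [ls_bo, ls_bo] at h1
  have h2 : bo T X + lb T L = bo T Y + lb T L' := congrArg ULift.down h1
  have h3 : bo T X = bo T Y := by
    rw [bo, bo, h.dim T.toGeo]
    exact Finset.sum_congr rfl fun i _ => h.betti T _
  have h4 : lb T L = lb T L' := by omega
  have h5 := congrArg (tr p) (key Cl.{u} _ (adv_A T))
  rw [tr_add, tr_add, tr_ls T p hp L (fun q hq => by have := hL q hq; omega),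
    tr_ls T p hp L' (fun q hq => by have := hL' q hq; omega), h4] at h5
  exact card_cancel _ _ _ (pow_ne_zero _ hp.ne_zero) h5

/-- The vanishing of the algebraically trivial classes. -/
theorem part_Z (T : Theory G K) {X Y : G.V} (h : KEq G X Y) (hd : G.dim X ≤ 4) (h0 : T.A X = ⊥) : T.A Y = ⊥ := by
  have hdim := h.dim T.toGeo
  have hq := (T.aChow X).1 h0
  rw [T.aChow Y]
  intro q h1 h2
  have hn : 1 ≤ G.dim X := by omega
  have hzero : T.Alg (G.dim Y) Y = ⊥ := by
    obtain ⟨Z, f, g, hf, hg, hK⟩ := h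
    exact (T.algZero g hg).1 ((T.algZero f hf).2 (hq _ hn le_rfl))
  have hcases : q = G.dim Y ∨ q = G.dim Y - 1 ∨ q = 1 ∨ (q = 2 ∧ 2 ≤ G.dim X) := by omega
  rcases hcases with rfl | rfl | rfl | ⟨rfl, h3⟩
  · exact hzero
  · obtain ⟨Z, f, g, hf, hg, hK⟩ := h
    obtain ⟨e, he⟩ := ch1_iso f g hf hg (T.same_exc f g hf hg hK) (G.dim Y) hdim
    have hx : T.Alg (G.dim Y - 1) X = ⊥ := hq _ h1 (by omega)
    rw [eq_bot_iff]
    intro y hy
    have h4 : e.symm y ∈ T.Alg (G.dim Y - 1) X := by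
      rw [(he _).2.2, e.apply_symm_apply]
      exact hy
    rw [hx, AddSubgroup.mem_bot] at h4
    rw [AddSubgroup.mem_bot, ← e.apply_symm_apply y, h4, map_zero]
  · rw [T.algPic Y (by omega), ← h.betti T, ← T.algPic X hn]
    exact hq 1 le_rfl hn
  · rw [T.bloch Y (by omega) hzero, ← h.betti T, ← T.bloch X h3 (hq _ hn le_rfl)]
    exact hq 2 (by omega) h3

theorem dvs_A (T : Theory G K) (X : G.V) : Dvs (T.A X) := by
  intro n x hn
  obtain ⟨y, hy, h1⟩ := (T.trivialClasses X).1 n x.1 hn x.2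
  exact ⟨⟨y, hy⟩, Subtype.ext h1⟩

/-- The algebraically trivial classes. -/
theorem part_A (T : Theory G K) (hDC : DVC_Stmt.{u}) {X Y : G.V} (h : KEq G X Y) (hd : G.dim X ≤ 4) :
    cl (T.A X) = cl (T.A Y) := by
  by_cases h0 : T.A X = ⊥
  · have h1 := part_Z T h hd h0
    have e : ∀ X : G.V, T.A X = ⊥ → cl (T.A X) = 0 := by
      intro X hX
      rw [← cl_zero]
      have : Subsingleton (T.A X) := by
        rw [hX]
        infer_instance
      exact cl_eq.2 ⟨⟨⟨fun _ => PUnit.unit, fun _ => 0, fun x => Subsingleton.elim _ _,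
        fun x => rfl⟩, fun x y => rfl⟩⟩
    rw [e X h0, e Y h1]
  · have h1 : T.A Y ≠ ⊥ := fun h1 => h0 (part_Z T h.symm (h.dim T.toGeo ▸ hd) h1)
    refine cl_eq.2 (hDC _ _ (dvs_A T X) (dvs_A T Y) (fun p hp => part_T T h hd p hp) ?_ ?_)
    · exact (T.trivialClasses X).2.resolve_left h0
    · exact (T.trivialClasses Y).2.resolve_left h1

end Pool.Agent.KEQ
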