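import Pool.Agent.KEQ.Theory

/-!
# The classes in `K_0` with support of dimension at most one
-/

set_option autoImplicit false

open CategoryTheory

namespace Pool.Agent.KEQ

universe u

/-- The published facts on `K X = K_0(X)` and the subgroup `F X = F_1 K_0(X)` of the classes with support
of dimension at most one. -/
structure CurveTheory (G : GeoData) (K : G.V → Type u) [∀ X, AddCommGroup (K X)]
    (F : ∀ X, AddSubgroup (K X)) extends Geo G where
  /-- the derived pull-back -/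
  pull : ∀ {X Y : G.V}, (X ⟶ Y) → (K Y →+ K X)
  /-- the derived push-forward under birational morphisms -/
  push : ∀ {X Y : G.V}, (X ⟶ Y) → (K X →+ K Y)
  pulls : (∀ (X : G.V) (x : K X), pull (𝟙 X) x = x) ∧
    ∀ {X Y Z : G.V} (f : X ⟶ Y) (g : Y ⟶ Z) (z : K Z), pull (f ≫ g) z = pull f (pull g z)
  /-- functoriality, and the projection formula with `R f_* O = O` -/
  pushes : (∀ {X Y Z : G.V} (f : X ⟶ Y) (g : Y ⟶ Z) (x : K X), G.bir f → G.bir g →
      push (f ≫ g) x = push g (push f x)) ∧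
    ∀ {X Y : G.V} (f : X ⟶ Y) (y : K Y), G.bir f → push f (pull f y) = y
  /-- curves can be moved away from closed subsets of codimension two (Chow's moving lemma) -/
  moving : (∀ {W X : G.V} (g : W ⟶ X) (x : K X), x ∈ F X → G.small g → pull g x = 0) ∧
    ∀ {X Y : G.V} (f : X ⟶ Y) (y : K Y), G.bir f → y ∈ F Y → pull f y ∈ F X
  supp : ∀ {X Y : G.V} (f : X ⟶ Y) (x : K X), G.bir f → x ∈ F X → push f x ∈ F Y
  /-- the blow-up formula and `j^* j_* a = a - a(1)` (SGA 6) -/
  blow_one : ∀ {X' X E Z : G.V} (β : X' ⟶ X) (j : E ⟶ X') (c : ℕ) (w : K X'),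
    G.blow β j Z c → w ∈ F X' → push β w = 0 → pull j w = 0 → w = 0

variable {G : GeoData} {K : G.V → Type u} [∀ X, AddCommGroup (K X)] {F : ∀ X, AddSubgroup (K X)}


theorem one_tower (T : CurveTheory G K F) {Z X : G.V} (f : Z ⟶ X) (hf : Tower G f) :
    G.bir f ∧ ∀ w : K Z, w ∈ F Z → T.push f w = 0 →
      (∀ (D : G.V) (i : D ⟶ Z), G.dvs i → G.small (i ≫ f) → T.pull i w = 0) → w = 0 := by
  induction hf with
  | iso f hf =>
    have hb : G.bir f := T.birs.1 f hf
    refine ⟨hb, fun w _ hw _ => ?_⟩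
    have h1 : T.pull f (T.pull (inv f) w) = w := by
      rw [← T.pulls.2, IsIso.hom_inv_id, T.pulls.1]
    rw [← h1, T.pushes.2 _ _ hb] at hw
    rw [← h1, hw, map_zero]
  | @step Z Y X E b j W c f hbl _ ih =>
    obtain ⟨hf, ih⟩ := ih
    obtain ⟨hc, hdim, hb, hj, hs⟩ := T.blows b j c hbl
    have hbf : G.bir (b ≫ f) := T.birs.2.1 b f hb hf
    refine ⟨hbf, fun w hwF hw hi => ?_⟩
    have hyF : T.push b w ∈ F Y := T.supp b w hb hwF
    have hw0 : w - T.pull b (T.push b w) = 0 := by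
      apply T.blow_one b j c _ hbl (sub_mem hwF (T.moving.2 b _ hb hyF))
      · rw [map_sub, T.pushes.2 _ _ hb, sub_self]
      · rw [map_sub, ← T.pulls.2, T.moving.1 (j ≫ b) _ hyF hs, sub_zero]
        apply hi E j hj
        rw [← Category.assoc]
        exact T.smalls.1 _ _ hs hf
    have hwe : w = T.pull b (T.push b w) := sub_eq_zero.1 hw0
    have hy : T.push b w = 0 := by
      apply ih _ hyF
      · rw [← T.pushes.1 _ _ _ hb hf, hw]
      · intro D i hd hsm
        obtain ⟨D', τ, i', hτ, hd', he⟩ := T.strict i b hd hb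
        have h1 : T.pull i' w = 0 := by
          apply hi D' i' hd'
          rw [← Category.assoc, he, Category.assoc]
          exact (T.smalls.2 τ _ hτ).2 hsm
        rw [hwe, ← T.pulls.2, he, T.pulls.2] at h1
        have h2 := T.pushes.2 τ (T.pull i (T.push b w)) hτ
        rw [h1, map_zero] at h2
        exact h2.symm
    rw [hwe, hy, map_zero]

theorem one_bir (T : CurveTheory G K F) {Z X : G.V} (f : Z ⟶ X) (hf : G.bir f) (w : K Z) (hF : w ∈ F Z)
    (hw : T.push f w = 0)
    (hi : ∀ (D : G.V) (i : D ⟶ Z), G.dvs i → G.small (i ≫ f) → T.pull i w = 0) : w = 0 := by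
  obtain ⟨Z', h, hh, htow⟩ := T.hironaka f hf
  obtain ⟨hhf, key⟩ := one_tower T (h ≫ f) htow
  have h0 : T.pull h w = 0 := by
    apply key _ (T.moving.2 h w hh hF)
    · rw [T.pushes.1 _ _ _ hh hf, T.pushes.2 _ _ hh, hw]
    · intro D i hd hsm
      rw [← T.pulls.2]
      rcases T.divisors i h hd hh with h1 | h1
      · exact T.moving.1 (i ≫ h) w hF h1
      · apply hi D (i ≫ h) h1
        rwa [Category.assoc]
  have h1 := T.pushes.2 h w hh
  rw [h0, map_zero] at h1
  exact h1.symm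

theorem one_pull (T : CurveTheory G K F) {Z X Y : G.V} (f : Z ⟶ X) (g : Z ⟶ Y) (hf : G.bir f) (hg : G.bir g)
    (hE : SameExc G f g) (x : K X) (hx : x ∈ F X) :
    T.pull g (T.push g (T.pull f x)) = T.pull f x := by
  have h1 : T.pull f x ∈ F Z := T.moving.2 f x hf hx
  have h2 : T.push g (T.pull f x) ∈ F Y := T.supp g _ hg h1
  have h0 : T.pull f x - T.pull g (T.push g (T.pull f x)) = 0 := by
    apply one_bir T g hg _ (sub_mem h1 (T.moving.2 g _ hg h2))
    · rw [map_sub, T.pushes.2 _ _ hg, sub_self]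
    · intro D i hd hsm
      rw [map_sub, ← T.pulls.2, ← T.pulls.2, T.moving.1 (i ≫ f) x hx ((hE D i hd).2 hsm),
        T.moving.1 (i ≫ g) _ h2 hsm, sub_zero]
  exact (sub_eq_zero.1 h0).symm

theorem one_iso (T : CurveTheory G K F) {X Y Z : G.V} (f : Z ⟶ X) (g : Z ⟶ Y) (hf : G.bir f) (hg : G.bir g)
    (hE : SameExc G f g) :
    ∃ e : F X ≃+ F Y, ∀ x : F X, (e x : K Y) = T.push g (T.pull f x) ∧
      T.pull g (e x : K Y) = T.pull f x := by
  have hE' : SameExc G g f := fun D i hi => (hE D i hi).symm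
  refine ⟨⟨⟨fun x => ⟨T.push g (T.pull f x), T.supp g _ hg (T.moving.2 f _ hf x.2)⟩,
    fun y => ⟨T.push f (T.pull g y), T.supp f _ hf (T.moving.2 g _ hg y.2)⟩, fun x => ?_,
    fun y => ?_⟩, fun x y => Subtype.ext (by simp)⟩,
    fun x => ⟨rfl, one_pull T f g hf hg hE x x.2⟩⟩
  · apply Subtype.ext
    change T.push f (T.pull g (T.push g (T.pull f x))) = x
    rw [one_pull T f g hf hg hE x x.2, T.pushes.2 _ _ hf]
  · apply Subtype.ext
    change T.push g (T.pull f (T.push f (T.pull g y))) = y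
    rw [one_pull T g f hg hf hE' y y.2, T.pushes.2 _ _ hg]

end Pool.Agent.KEQ
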