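import Pool.Agent.KEQ.Theory

/-!
# Smooth projective complex varieties, and their groups `K_0`
-/

set_option autoImplicit false

open CategoryTheory AlgebraicGeometry Limits

namespace Pool.Agent.KEQ

noncomputable instance (n : ℕ) : GradedRing (MvPolynomial.homogeneousSubmodule (Fin (n + 1)) ℂ) :=
  MvPolynomial.gradedAlgebra

/-- The complex projective space of dimension `n`. -/
noncomputable abbrev PS (n : ℕ) : Scheme.{0} :=
  Proj (MvPolynomial.homogeneousSubmodule (Fin (n + 1)) ℂ)

/-- Its structure morphism. -/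
noncomputable def PS.str (n : ℕ) : PS n ⟶ Spec (.of ℂ) :=
  Proj.toSpecZero (MvPolynomial.homogeneousSubmodule (Fin (n + 1)) ℂ) ≫
    Spec.map (CommRingCat.ofHom
      (algebraMap ℂ (MvPolynomial.homogeneousSubmodule (Fin (n + 1)) ℂ 0)))

/-- Smooth projective (irreducible) complex varieties. -/
structure SPV where
  /-- the scheme -/
  X : Scheme.{0}
  /-- the structure morphism -/
  str : X ⟶ Spec (.of ℂ)
  [integral : IsIntegral X]
  [smooth : Smooth str]
  /-- there is a closed immersion in a projective space -/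
  proj : ∃ (n : ℕ) (i : X ⟶ PS n), IsClosedImmersion i ∧ i ≫ PS.str n = str

attribute [instance] SPV.integral SPV.smooth

instance (X : SPV) : IsLocallyNoetherian X.X := LocallyOfFiniteType.isLocallyNoetherian X.str

/-- The morphisms of schemes over `ℂ`. -/
instance : Category.{0} SPV where
  Hom X Y := {f : X.X ⟶ Y.X // f ≫ Y.str = X.str}
  id X := ⟨𝟙 X.X, by simp⟩
  comp f g := ⟨f.1 ≫ g.1, by rw [Category.assoc, g.2, f.2]⟩

/-- The dimension. -/
noncomputable def SPV.dim (X : SPV) : ℕ := ((topologicalKrullDim X.X).unbotD 0).toNat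

/-- Birational morphisms: isomorphisms above a nonempty open subset. -/
def Bir {X Y : SPV} (f : X ⟶ Y) : Prop :=
  ∃ U : Y.X.Opens, (U : Set Y.X).Nonempty ∧ IsIso (f.1 ∣_ U)

/-- The image has codimension at least two. -/
def Small {X Y : SPV} (f : X ⟶ Y) : Prop := ∀ x : X.X, 2 ≤ Order.coheight (f.1 x)

/-- The morphism is birational onto a prime divisor: the image of the generic point has codimension
one, and the residue fields are the same. -/
def Dvsr {X Y : SPV} (f : X ⟶ Y) : Prop := Order.coheight (f.1 (genericPoint X.X)) = 1 ∧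
  IsIso (f.1.residueFieldMap (genericPoint X.X))

/-- `i : D ⟶ X` is the inclusion of an effective Cartier divisor: a closed immersion, and the ideal of
`D` is locally generated by one element that is not a zero divisor. -/
def Cartier {D X : Scheme.{0}} (i : D ⟶ X) : Prop := IsClosedImmersion i ∧
  ∀ x : X, ∃ U : X.affineOpens, x ∈ U.1 ∧ ∃ s ∈ nonZeroDivisors Γ(X, U.1),
    RingHom.ker (i.app U.1).hom = Ideal.span {s}

/-- `X' ⟶ X` is the blow-up of `X` in the smooth closed subvariety `Z` of codimension `c ≥ 2`, with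
exceptional divisor `E` (universal property of the blow-up). -/
def Blow {X' X E : SPV} (b : X' ⟶ X) (j : E ⟶ X') (Z : SPV) (c : ℕ) : Prop :=
  2 ≤ c ∧ Z.dim + c = X.dim ∧ ∃ (z : Z ⟶ X) (p : E ⟶ Z), IsClosedImmersion z.1 ∧
    IsPullback j.1 p.1 b.1 z.1 ∧ Cartier j.1 ∧
      ∀ (T : Scheme.{0}) (g : T ⟶ X.X), Cartier (pullback.fst g z.1) →
        ∃! t : T ⟶ X'.X, t ≫ b.1 = g

/-- `P` is isomorphic to `X × P^a`. -/
def Prd (P X : SPV) (a : ℕ) : Prop :=
  ∃ (p : P ⟶ X) (q : P.X ⟶ PS a), IsPullback p.1 q X.str (PS.str a)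

/-- The length of the module of differentials of a homomorphism of rings. -/
noncomputable def lenOmega {A B : CommRingCat.{0}} (φ : A ⟶ B) : ℕ∞ :=
  letI := φ.hom.toAlgebra
  Module.length B (Ω[B⁄A])

/-- The multiplicity of the relative canonical divisor `K_{Z/X}` of a birational morphism `Z ⟶ X` at
the prime divisor with generic point `z`: the order of the Jacobian determinant, or the length of the
module of differentials of the local ring of `Z` over the local ring of `X`. -/
noncomputable def canMult {Z X : SPV} (f : Z ⟶ X) (z : Z.X) : ℕ∞ := lenOmega (f.1.stalkMap z)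

/-- The relative canonical divisors `K_{Z/X}` and `K_{Z/Y}` are linearly equivalent: their difference is
the divisor of a rational function. Since `K_Z = f^* K_X + K_{Z/X} = g^* K_Y + K_{Z/Y}`, it is the same
that `f^* K_X` and `g^* K_Y` are linearly equivalent. -/
def Crep {Z X Y : SPV} (f : Z ⟶ X) (g : Z ⟶ Y) : Prop :=
  ∃ φ : Z.X.functionField, φ ≠ 0 ∧ ∀ z : Z.X, Order.coheight z = 1 →
    ((canMult f z).toNat : ℤ) - ((canMult g z).toNat : ℤ) = Scheme.ord φ z

theorem Crep.symm {Z X Y : SPV} (f : Z ⟶ X) (g : Z ⟶ Y) (h : Crep f g) : Crep g f := by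
  obtain ⟨φ, h0, h⟩ := h
  refine ⟨φ⁻¹, inv_ne_zero h0, fun z hz => ?_⟩
  have h1 : Scheme.ord (1 : Z.X.functionField) z = 0 := by
    have := Scheme.ord_mul (x := z) (one_ne_zero (α := Z.X.functionField))
      (one_ne_zero (α := Z.X.functionField))
    rw [mul_one] at this
    omega
  have h2 := Scheme.ord_mul (x := z) h0 (inv_ne_zero h0)
  rw [mul_inv_cancel₀ h0, h1, ← h z hz] at h2
  omega

/-- Smooth projective complex varieties. -/
noncomputable def SPVs : GeoData where
  V := SPV
  dim := SPV.dim
  bir := Bir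
  small := Small
  dvs := Dvsr
  blow := Blow
  prod := Prd
  crep := Crep
  crep_symm := Crep.symm

/-- The coherent sheaves on a variety. -/
def Coh (X : SPV) : Type 1 := {M : X.X.Modules // SheafOfModules.IsFinitePresentation M}

/-- The relations of `K_0`: short exact sequences of coherent sheaves. -/
def Rel (X : SPV) : AddSubgroup (FreeAbelianGroup (Coh X)) :=
  AddSubgroup.closure {r | ∃ (A B C : Coh X) (S : ShortComplex X.X.Modules), S.ShortExact ∧
    S.X₁ = A.1 ∧ S.X₂ = B.1 ∧ S.X₃ = C.1 ∧
    r = FreeAbelianGroup.of B - FreeAbelianGroup.of A - FreeAbelianGroup.of C}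

/-- The Grothendieck group of coherent sheaves. -/
def K0 (X : SPV) : Type 1 := FreeAbelianGroup (Coh X) ⧸ Rel X

instance (X : SPV) : AddCommGroup (K0 X) := inferInstanceAs (AddCommGroup (_ ⧸ Rel X))

/-- The subgroup of the classes of the coherent sheaves with support of dimension at most one. -/
def F1 (X : SPV) : AddSubgroup (K0 X) :=
  AddSubgroup.closure {r | ∃ M : Coh X, r = QuotientAddGroup.mk (FreeAbelianGroup.of M) ∧
    ∃ C : Set X.X, IsClosed C ∧ topologicalKrullDim C ≤ 1 ∧
      ∀ U : X.X.Opens, Disjoint (U : Set X.X) C → Subsingleton Γ(M.1, U)}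

end Pool.Agent.KEQ
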