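import Mathlib

/-!
# K_0 of K-equivalent varieties (MP_e37830_ag): the published facts that are assumed

`GeoData` is the geometric data (in the hand-ins: the smooth projective complex varieties, see
`Pool/Agent/KEQ/Real.lean`), `Geo` collects classical facts on birational morphisms, `Chow` and `Theory`
add Chow groups, Betti numbers and integral Hodge classes with the published facts used in the proof.
-/

set_option autoImplicit false

open CategoryTheory Cardinal

namespace Pool.Agent.KEQ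

universe u

/-- Varieties, morphisms, and the notions of birational geometry that are used. -/
structure GeoData where
  /-- smooth projective varieties over `ℂ` -/
  V : Type 1
  /-- their morphisms -/
  [cat : Category.{0} V]
  /-- the dimension -/
  dim : V → ℕ
  /-- birational morphisms -/
  bir : ∀ {X Y : V}, (X ⟶ Y) → Prop
  /-- morphisms whose image has codimension at least two -/
  small : ∀ {X Y : V}, (X ⟶ Y) → Prop
  /-- morphisms that are birational onto a prime divisor -/
  dvs : ∀ {X Y : V}, (X ⟶ Y) → Prop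
  /-- `blow b j Z c`: the morphism `b : X' ⟶ X` is a blow-up of `X` in a smooth closed subvariety
  isomorphic to `Z`, of codimension `c ≥ 2`, and `j : E ⟶ X'` is the inclusion of the exceptional
  divisor -/
  blow : ∀ {X' X E : V}, (X' ⟶ X) → (E ⟶ X') → V → ℕ → Prop
  /-- `prod P X a`: `P` is isomorphic to `X × P^a` -/
  prod : V → V → ℕ → Prop
  /-- `crep f g`: the pull-backs of the canonical divisors of `X` and `Y` under the birational
  morphisms `f : Z ⟶ X` and `g : Z ⟶ Y` are linearly equivalent -/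
  crep : ∀ {Z X Y : V}, (Z ⟶ X) → (Z ⟶ Y) → Prop
  crep_symm : ∀ {Z X Y : V} (f : Z ⟶ X) (g : Z ⟶ Y), crep f g → crep g f

attribute [instance] GeoData.cat

section

variable (G : GeoData)

/-- Compositions of blow-ups. -/
inductive Tower : ∀ {Z X : G.V}, (Z ⟶ X) → Prop
  | iso {Z X : G.V} (f : Z ⟶ X) : IsIso f → Tower f
  | step {Z Y X E : G.V} (b : Z ⟶ Y) (j : E ⟶ Z) (W : G.V) (c : ℕ) (f : Y ⟶ X) :
      G.blow b j W c → Tower f → Tower (b ≫ f)

/-- One step of a factorization: an isomorphism, a blow-up or a blow-down. -/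
def Step (X Y : G.V) : Prop :=
  Nonempty (X ≅ Y) ∨
    (∃ (E Z : G.V) (b : Y ⟶ X) (j : E ⟶ Y) (c : ℕ), G.blow b j Z c) ∨
    ∃ (E Z : G.V) (b : X ⟶ Y) (j : E ⟶ X) (c : ℕ), G.blow b j Z c

/-- Additive invariants: homomorphisms from Bittner's presentation of the Grothendieck group of
varieties. -/
def Msr {W : Type} [AddCommGroup W] (μ : G.V → W) : Prop :=
  (∀ X Y : G.V, Nonempty (X ≅ Y) → μ X = μ Y) ∧
    ∀ (X' X E Z : G.V) (b : X' ⟶ X) (j : E ⟶ X') (c : ℕ), G.blow b j Z c →
      μ X' + μ Z = μ X + μ E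

/-- The birational morphisms `f`, `g` contract the same prime divisors. -/
def SameExc {X Y Z : G.V} (f : Z ⟶ X) (g : Z ⟶ Y) : Prop :=
  ∀ (D : G.V) (i : D ⟶ Z), G.dvs i → (G.small (i ≫ f) ↔ G.small (i ≫ g))

/-- K-equivalence. -/
def KEq (X Y : G.V) : Prop :=
  ∃ (Z : G.V) (f : Z ⟶ X) (g : Z ⟶ Y), G.bir f ∧ G.bir g ∧ G.crep f g

theorem KEq.symm {G : GeoData} {X Y : G.V} (h : KEq G X Y) : KEq G Y X := by
  obtain ⟨Z, f, g, hf, hg, hK⟩ := h
  exact ⟨Z, g, f, hg, hf, G.crep_symm f g hK⟩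

/-- The facts on birational morphisms. -/
structure Geo : Prop where
  /-- isomorphisms are birational, birational morphisms can be composed and preserve the dimension -/
  birs : (∀ {X Y : G.V} (f : X ⟶ Y), IsIso f → G.bir f) ∧
    (∀ {X Y Z : G.V} (f : X ⟶ Y) (g : Y ⟶ Z), G.bir f → G.bir g → G.bir (f ≫ g)) ∧
    ∀ {X Y : G.V} (f : X ⟶ Y), G.bir f → G.dim X = G.dim Y
  /-- birational morphisms are surjective, and the image of a small set under them is small -/
  smalls : (∀ {W X Y : G.V} (g : W ⟶ X) (f : X ⟶ Y), G.small g → G.bir f → G.small (g ≫ f)) ∧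
    ∀ {W' W X : G.V} (τ : W' ⟶ W) (g : W ⟶ X), G.bir τ → (G.small (τ ≫ g) ↔ G.small g)
  /-- a prime divisor is contracted or mapped birationally onto a prime divisor (Zariski's main
  theorem) -/
  divisors : ∀ {D X Y : G.V} (i : D ⟶ X) (h : X ⟶ Y), G.dvs i → G.bir h →
    G.small (i ≫ h) ∨ G.dvs (i ≫ h)
  /-- strict transforms have smooth models (Hironaka 1964) -/
  strict : ∀ {D X Y : G.V} (i : D ⟶ Y) (h : X ⟶ Y), G.dvs i → G.bir h →
    ∃ (D' : G.V) (τ : D' ⟶ D) (i' : D' ⟶ X), G.bir τ ∧ G.dvs i' ∧ i' ≫ h = τ ≫ i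
  /-- blow-ups are birational and contract the exceptional divisor -/
  blows : ∀ {X' X E Z : G.V} (b : X' ⟶ X) (j : E ⟶ X') (c : ℕ), G.blow b j Z c →
    2 ≤ c ∧ G.dim Z + c = G.dim X ∧ G.bir b ∧ G.dvs j ∧ G.small (j ≫ b)
  /-- Hironaka 1964: every birational morphism is dominated by a composition of blow-ups -/
  hironaka : ∀ {Z X : G.V} (f : Z ⟶ X), G.bir f → ∃ (Z' : G.V) (h : Z' ⟶ Z), G.bir h ∧
    Tower G (h ≫ f)
  /-- negativity lemma: the relative canonical divisors are equal; their components are the exceptional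
  prime divisors -/
  same_exc : ∀ {Z X Y : G.V} (f : Z ⟶ X) (g : Z ⟶ Y), G.bir f → G.bir g → G.crep f g →
    SameExc G f g

/-- Chow groups with pull-backs and push-forwards. -/
structure ChowData where
  /-- the Chow group `CH^q(X)` of cycles of codimension `q` modulo rational equivalence -/
  C : ℕ → G.V → Type
  [cGrp : ∀ q X, AddCommGroup (C q X)]
  /-- the subgroup of the cycles that are algebraically equivalent to zero -/
  Alg : ∀ q X, AddSubgroup (C q X)
  /-- pull-back of cycle classes -/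
  pull : ∀ {X Y : G.V} (q : ℕ), (X ⟶ Y) → (C q Y →+ C q X)
  /-- push-forward of cycle classes under birational morphisms -/
  push : ∀ {X Y : G.V} (q : ℕ), (X ⟶ Y) → (C q X →+ C q Y)

end

attribute [instance] ChowData.cGrp

namespace ChowData

variable {G : GeoData} (D : ChowData G)

/-- The pull-back is functorial. -/
def Pulls : Prop := (∀ (X : G.V) (q : ℕ) (x : D.C q X), D.pull q (𝟙 X) x = x) ∧
  ∀ {X Y Z : G.V} (q : ℕ) (f : X ⟶ Y) (g : Y ⟶ Z) (z : D.C q Z),
    D.pull q (f ≫ g) z = D.pull q f (D.pull q g z)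

/-- The push-forward is functorial, and the projection formula. -/
def Pushes : Prop := (∀ {X Y Z : G.V} (q : ℕ) (f : X ⟶ Y) (g : Y ⟶ Z) (x : D.C q X),
    G.bir f → G.bir g → D.push q (f ≫ g) x = D.push q g (D.push q f x)) ∧
  ∀ {X Y : G.V} (q : ℕ) (f : X ⟶ Y) (y : D.C q Y), G.bir f → D.push q f (D.pull q f y) = y

/-- Pull-back and push-forward respect algebraic equivalence. -/
def Algs : Prop := (∀ {X Y : G.V} (q : ℕ) (f : X ⟶ Y) (y : D.C q Y), y ∈ D.Alg q Y →
    D.pull q f y ∈ D.Alg q X) ∧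
  ∀ {X Y : G.V} (q : ℕ) (f : X ⟶ Y) (x : D.C q X), G.bir f → x ∈ D.Alg q X →
    D.push q f x ∈ D.Alg q Y

/-- Chow's moving lemma: a curve can be moved away from a closed subset of codimension two. -/
def Moving : Prop := ∀ {W X : G.V} (g : W ⟶ X) (x : D.C (G.dim X - 1) X), G.small g →
  D.pull (G.dim X - 1) g x = 0

/-- The blow-up formula for `CH_1` and `j^* j_* = c_1(O_E(-1))`. -/
def BlowOne : Prop := ∀ {X' X E Z : G.V} (β : X' ⟶ X) (j : E ⟶ X') (c : ℕ)
  (w : D.C (G.dim X - 1) X'), G.blow β j Z c → D.push (G.dim X - 1) β w = 0 →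
    D.pull (G.dim X - 1) j w = 0 → w = 0

/-- Zero-cycles: birational invariance (Fulton, 16.1.11). -/
def Zero : Prop := ∀ {X Y : G.V} (f : X ⟶ Y), G.bir f →
  (D.Alg (G.dim X) X = ⊥ ↔ D.Alg (G.dim Y) Y = ⊥)

end ChowData

/-- Intersection theory (Fulton, Intersection Theory). -/
structure Chow (G : GeoData) extends Geo G, ChowData G where
  pulls : toChowData.Pulls
  pushes : toChowData.Pushes
  algs : toChowData.Algs
  moving : toChowData.Moving
  blow_one : toChowData.BlowOne

/-- The algebraically trivial elements of `K X = K_0(X)`, integral Hodge classes and Betti numbers. -/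
structure Invs (G : GeoData) (K : G.V → Type u) [∀ X, AddCommGroup (K X)] where
  /-- the subgroup of the algebraically trivial elements of `K_0(X)` -/
  A : ∀ X, AddSubgroup (K X)
  /-- the group of the integral Hodge classes of all degrees, in `⊕ H^(2p)(X, ℤ)` -/
  H : G.V → Type
  [hGrp : ∀ X, AddCommGroup (H X)]
  /-- the Betti numbers -/
  b : ℕ → G.V → ℕ

attribute [instance] Invs.hGrp

namespace Invs

variable {G : GeoData} {K : G.V → Type u} [∀ X, AddCommGroup (K X)] (I : Invs G K)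
  (D : ChowData G)

/-- The blow-up formula for `K_0` (SGA 6, Thomason). -/
def KBlow : Prop := ∀ {X' X E Z : G.V} (β : X' ⟶ X) (j : E ⟶ X') (c : ℕ), G.blow β j Z c →
  ∃ e : K X' ≃+ (K X × (Fin (c - 1) → K Z)),
    ∀ x, x ∈ I.A X' ↔ (e x).1 ∈ I.A X ∧ ∀ t, (e x).2 t ∈ I.A Z

/-- Isomorphic varieties. -/
def KIso : Prop := ∀ {X Y : G.V}, Nonempty (X ≅ Y) →
  ∃ e : K X ≃+ K Y, ∀ x, x ∈ I.A X ↔ e x ∈ I.A Y

/-- Algebraically trivial classes come from Jacobians of curves, so they are divisible, and if there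
are nonzero ones then their rank is uncountable (Mumford, Roitman: the kernel of a family of classes
is a countable union of closed subsets). -/
def Trivial : Prop := ∀ X : G.V,
  (∀ (n : ℕ) (x : K X), 1 ≤ n → x ∈ I.A X → ∃ y ∈ I.A X, n • y = x) ∧
    (I.A X = ⊥ ∨ #(I.A X ⧸ AddCommGroup.torsion (I.A X)) = 𝔠)

/-- The Chern character, together with the same dichotomy for Chow groups. -/
def AChow : Prop := ∀ X : G.V, I.A X = ⊥ ↔ ∀ q : ℕ, 1 ≤ q → q ≤ G.dim X → D.Alg q X = ⊥

/-- Dimension at most two: `K_0` modulo algebraic equivalence is `ℤ`, `ℤ²`, `ℤ ⊕ NS ⊕ ℤ`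
(Lefschetz theorem on (1,1)-classes); torsion of the algebraically trivial part (Picard variety;
Roitman 1980). -/
def Surfaces : Prop := ∀ Z : G.V, G.dim Z ≤ 2 → Nonempty ((K Z ⧸ I.A Z) ≃+ I.H Z) ∧
  ∀ p : ℕ, p.Prime → Nat.card {x : I.A Z // p • x = 0} =
    p ^ ∑ i ∈ Finset.range (G.dim Z + 1), I.b (2 * i + 1) Z

/-- The Picard variety. -/
def Pic : Prop := ∀ X : G.V, 1 ≤ G.dim X → (D.Alg 1 X = ⊥ ↔ I.b 1 X = 0)

/-- Bloch and Srinivas 1983: if `A_0(X) = 0` then `A^2(X)` is the intermediate Jacobian `J^2(X)`. -/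
def Bloch : Prop := ∀ X : G.V, 2 ≤ G.dim X → D.Alg (G.dim X) X = ⊥ →
  (D.Alg 2 X = ⊥ ↔ I.b 3 X = 0)

/-- The integral Hodge classes of blow-ups, projective bundles and products with `P^a`. -/
def Hodge : Prop := (∀ X : G.V, Module.Finite ℤ (I.H X)) ∧
  (∀ {X Y : G.V}, Nonempty (X ≅ Y) → Nonempty (I.H X ≃+ I.H Y)) ∧
  (∀ (P X : G.V) (a : ℕ), G.prod P X a → Nonempty (I.H P ≃+ (Fin (a + 1) → I.H X))) ∧
  ∀ {X' X E Z : G.V} (β : X' ⟶ X) (j : E ⟶ X') (c : ℕ), G.blow β j Z c →
    Nonempty (I.H X' ≃+ (I.H X × (Fin (c - 1) → I.H Z))) ∧ Nonempty (I.H E ≃+ (Fin c → I.H Z))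

/-- The Betti numbers of blow-ups, projective bundles and products with `P^a`. -/
def Betti : Prop := (∀ (X : G.V) (k : ℕ), 2 * G.dim X < k → I.b k X = 0) ∧
  (∀ {X Y : G.V}, Nonempty (X ≅ Y) → ∀ k : ℕ, I.b k X = I.b k Y) ∧
  (∀ (P X : G.V) (a k : ℕ), G.prod P X a →
    I.b k P = ∑ t ∈ Finset.range (a + 1), if 2 * t ≤ k then I.b (k - 2 * t) X else 0) ∧
  ∀ {X' X E Z : G.V} (β : X' ⟶ X) (j : E ⟶ X') (c : ℕ), G.blow β j Z c → ∀ k : ℕ,
    I.b k X' = I.b k X + (∑ t ∈ Finset.Ico 1 c, if 2 * t ≤ k then I.b (k - 2 * t) Z else 0) ∧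
      I.b k E = ∑ t ∈ Finset.range c, if 2 * t ≤ k then I.b (k - 2 * t) Z else 0

end Invs

/-- The weak factorization theorem (Abramovich, Karu, Matsuki, Wlodarczyk 2002). -/
def Weak (G : GeoData) : Prop := ∀ {Z X Y : G.V} (f : Z ⟶ X) (g : Z ⟶ Y), G.bir f → G.bir g →
  Relation.ReflTransGen (Step G) X Y

/-- The classes of K-equivalent varieties in the Grothendieck group of varieties (Bittner's
presentation) become equal after multiplication with a product of projective spaces (Kontsevich,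
Denef and Loeser, Veys: change of variables in the localization by the classes of the projective
spaces). -/
def Motivic (G : GeoData) : Prop := ∀ {Z X Y : G.V} (f : Z ⟶ X) (g : Z ⟶ Y), G.bir f → G.bir g →
  G.crep f g → ∃ (l : List ℕ) (pr : G.V → ℕ → G.V), (∀ X a, G.prod (pr X a) X a) ∧
    ∀ (W : Type) [AddCommGroup W] (μ : G.V → W), Msr G μ → μ (l.foldl pr X) = μ (l.foldl pr Y)

/-- The published facts on `K_0`, Chow groups, Betti numbers and integral Hodge classes of smooth
projective varieties; `K X` is `K_0(X)`. -/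
structure Theory (G : GeoData) (K : G.V → Type u) [∀ X, AddCommGroup (K X)]
    extends Chow G, Invs G K where
  weak : Weak G
  motivic : Motivic G
  kBlow : toInvs.KBlow
  kIso : toInvs.KIso
  trivialClasses : toInvs.Trivial
  aChow : toInvs.AChow toChowData
  surfaces : toInvs.Surfaces
  algZero : toChowData.Zero
  algPic : toInvs.Pic toChowData
  bloch : toInvs.Bloch toChowData
  hodge : toInvs.Hodge
  betti : toInvs.Betti

end Pool.Agent.KEQ
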